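import Mathlib

/-!
# MP_3c89f4_co: richness of the second and third S-preimages of Sturmian words

For every Sturmian word `u`, every `S²`-preimage of `u` is `H`-rich and `R`-rich, and every
`S³`-preimage of `u` is `H`-rich but not `R`-rich.

Outline. (A) languages with one left special word of each length are desubstituted; they are closed
under reversal. (B), (C) counting of factors and palindromes of Sturmian words. (D) every factor of
`u` occurs in every state of the group extension of `u` by the three sums modulo two; hence the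
three iterated preimages are closed under exchange of letters. (E) factor, palindromic and
`E`-palindromic complexities of the preimages. (F) the equality
`C(n+1) - C(n) + 2 = P(n+1) + P(n)` implies richness (graph of classes of factors is a tree).
(G) the third preimages are not rich since the graph of classes of factors of length three
contains a cycle.
-/

set_option autoImplicit false

namespace Pool.Agent.Results.MP_3c89f4_co.SPreimages

open scoped Classical

section words

variable {α : Type*}

/-- a factorial irreducible language -/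
structure Bs (L : Set (List α)) : Prop where
  fac : ∀ x w y, x ++ w ++ y ∈ L → w ∈ L
  conn : ∀ w ∈ L, ∀ w' ∈ L, ∃ t, w ++ t ++ w' ∈ L
  ne : ∃ a, [a] ∈ L

/-- at most one left special word of each length -/
def LSu (L : Set (List α)) : Prop :=
  ∀ w w' a b a' b', a ≠ b → a' ≠ b' → a :: w ∈ L → b :: w ∈ L → a' :: w' ∈ L →
    b' :: w' ∈ L → w.length = w'.length → w = w'

/-- the reversed language -/
def revL (L : Set (List α)) : Set (List α) := {w | w.reverse ∈ L}

namespace Bs

variable {L : Set (List α)}

theorem fac' (h : Bs L) {w z : List α} (hz : z ∈ L) (hw : w <:+: z) : w ∈ L := by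
  obtain ⟨x, y, rfl⟩ := hw
  exact h.fac x w y hz

theorem nil_mem (h : Bs L) : [] ∈ L := by
  obtain ⟨a, ha⟩ := h.ne
  exact h.fac' ha (List.nil_infix)

theorem ext_right (h : Bs L) {w : List α} (hw : w ∈ L) : ∃ c, w ++ [c] ∈ L := by
  obtain ⟨a, ha⟩ := h.ne
  obtain ⟨t, ht⟩ := h.conn w hw [a] ha
  cases t with
  | nil => exact ⟨a, by simpa using ht⟩
  | cons c t => exact ⟨c, h.fac' ht ⟨[], t ++ [a], by simp⟩⟩

theorem ext_left (h : Bs L) {w : List α} (hw : w ∈ L) : ∃ c, c :: w ∈ L := by
  obtain ⟨a, ha⟩ := h.ne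
  obtain ⟨t, ht⟩ := h.conn [a] ha w hw
  rcases List.eq_nil_or_concat ([a] ++ t) with h1 | ⟨s, c, h1⟩
  · simp at h1
  · rw [List.concat_eq_append] at h1
    rw [h1] at ht
    exact ⟨c, h.fac' ht ⟨s, [], by simp⟩⟩

theorem rev (h : Bs L) : Bs (revL L) := by
  refine ⟨?_, ?_, ?_⟩
  · intro x w y hw
    change (x ++ w ++ y).reverse ∈ L at hw
    exact h.fac' hw ⟨y.reverse, x.reverse, by simp⟩
  · intro w hw w' hw'
    obtain ⟨t, ht⟩ := h.conn _ hw' _ hw
    refine ⟨t.reverse, ?_⟩
    change (w ++ t.reverse ++ w').reverse ∈ L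
    simpa using ht
  · obtain ⟨a, ha⟩ := h.ne
    exact ⟨a, by change [a].reverse ∈ L; simpa using ha⟩

end Bs

/-- `a` occurs in every factor of length two -/
def Sep (L : Set (List α)) (a : α) : Prop := ∀ x y, [x, y] ∈ L → x = a ∨ y = a

theorem Sep.rev {L : Set (List α)} {a : α} (h : Sep L a) : Sep (revL L) a := by
  intro x y hxy
  have : [y, x] ∈ L := by simpa [revL] using hxy
  exact (h _ _ this).symm

/-- the morphism `a ↦ a`, `b ↦ ab` for `b ≠ a` -/
noncomputable def psi (a : α) (w : List α) : List α :=
  w.flatMap (fun b => if b = a then [a] else [a, b])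

theorem psi_nil (a : α) : psi a [] = [] := rfl

theorem psi_append (a : α) (w w' : List α) : psi a (w ++ w') = psi a w ++ psi a w' := by
  simp [psi]

theorem psi_cons (a b : α) (w : List α) :
    psi a (b :: w) = (if b = a then [a] else [a, b]) ++ psi a w := by
  simp [psi]

theorem psi_head (a : α) (w : List α) : ∃ r, psi a w ++ [a] = a :: r := by
  cases w with
  | nil => exact ⟨[], rfl⟩
  | cons b w =>
    rw [psi_cons]
    by_cases h : b = a
    · exact ⟨psi a w ++ [a], by simp [h]⟩
    · exact ⟨b :: (psi a w ++ [a]), by simp [h]⟩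

theorem psi_reverse (a : α) (w : List α) :
    (psi a w ++ [a]).reverse = psi a w.reverse ++ [a] := by
  induction w with
  | nil => simp [psi]
  | cons b w ih =>
    rw [psi_cons, List.append_assoc, List.reverse_append, ih, List.reverse_cons, psi_append,
      psi_cons, psi_nil]
    by_cases h : b = a <;> simp [h]

theorem psi_length_le (a : α) (w : List α) : (psi a w).length ≤ 2 * w.length := by
  induction w with
  | nil => simp [psi]
  | cons b w ih =>
    rw [psi_cons]
    by_cases h : b = a <;> simp [h] <;> omega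

theorem psi_length (a : α) (w : List α) :
    (psi a w).length = w.length + (w.countP (fun b => decide (b ≠ a))) := by
  induction w with
  | nil => simp [psi]
  | cons b w ih =>
    rw [psi_cons]
    by_cases h : b = a <;> simp [h, ih] <;> omega

theorem psi_count (a : α) (w : List α) :
    (psi a w).countP (fun b => decide (b ≠ a)) = w.countP (fun b => decide (b ≠ a)) := by
  induction w with
  | nil => simp [psi]
  | cons b w ih =>
    rw [psi_cons, List.countP_append, ih]
    by_cases h : b = a <;> simp [h] <;> omega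

theorem psi_inj_prefix (a : α) : ∀ (w w' : List α), psi a w ++ [a] <+: psi a w' ++ [a] →
    w <+: w' := by
  intro w
  induction w with
  | nil => intro w' _; exact List.nil_prefix
  | cons b w ih =>
    intro w' hp
    cases w' with
    | nil =>
      exfalso
      have := hp.length_le
      rw [psi_cons, psi_nil] at this
      by_cases h : b = a <;> simp [h] at this
    | cons c w' =>
      rw [psi_cons, psi_cons] at hp
      obtain ⟨r, hr⟩ := psi_head a w
      obtain ⟨r', hr'⟩ := psi_head a w'
      by_cases hb : b = a <;> by_cases hc : c = a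
      · subst hb; subst hc
        simp only [if_true, List.nil_append, List.cons_append, List.cons_prefix_cons,
          true_and] at hp
        exact List.cons_prefix_cons.2 ⟨rfl, ih w' hp⟩
      · exfalso
        rw [if_pos hb, if_neg hc, List.append_assoc, hr] at hp
        simp only [List.nil_append, List.cons_append, List.cons_prefix_cons] at hp
        exact hc hp.2.1.symm
      · exfalso
        rw [if_neg hb, if_pos hc, List.append_assoc [a] , hr'] at hp
        simp only [List.nil_append, List.cons_append, List.cons_prefix_cons] at hp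
        exact hb hp.2.1
      · rw [if_neg hb, if_neg hc] at hp
        simp only [List.cons_append, List.cons_prefix_cons, List.nil_append, true_and] at hp
        obtain ⟨h1, h2⟩ := hp
        exact List.cons_prefix_cons.2 ⟨h1, ih w' h2⟩

/-- the desubstituted language -/
def der (L : Set (List α)) (a : α) : Set (List α) := {w | psi a w ++ [a] ∈ L}

theorem der_rev (L : Set (List α)) (a : α) : der (revL L) a = revL (der L a) := by
  ext w
  change (psi a w ++ [a]).reverse ∈ L ↔ psi a w.reverse ++ [a] ∈ L
  rw [psi_reverse]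

theorem decode_psi {L : Set (List α)} (h : Bs L) {a : α} (hs : Sep L a) :
    ∀ (n : ℕ) (w : List α), w.length ≤ n → a :: w ∈ L → (w = [] ∨ ∃ r, w = r ++ [a]) →
      ∃ w', a :: w = psi a w' ++ [a] := by
  intro n
  induction n with
  | zero =>
    intro w hw _ _
    have : w = [] := List.length_eq_zero_iff.1 (by omega)
    subst this
    exact ⟨[], rfl⟩
  | succ n ih =>
    intro w hw haw hend
    cases w with
    | nil => exact ⟨[], rfl⟩
    | cons b w =>
      by_cases hb : b = a
      · subst hb
        have h1 : b :: w ∈ L := h.fac' haw ⟨[b], [], by simp⟩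
        have h2 : w = [] ∨ ∃ r, w = r ++ [b] := by
          rcases hend with h3 | ⟨r, hr⟩
          · simp at h3
          · cases r with
            | nil => left; simpa using hr
            | cons c r => right; exact ⟨r, by simpa using (List.cons_eq_cons.1 hr).2⟩
        obtain ⟨w', hw'⟩ := ih w (by simp at hw; omega) h1 h2
        exact ⟨b :: w', by rw [psi_cons, hw']; simp⟩
      · rcases hend with h3 | ⟨r, hr⟩
        · simp at h3
        · cases r with
          | nil =>
            exfalso
            simp at hr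
            exact hb hr.1
          | cons c r =>
            have hbw : w = r ++ [a] := by simpa using (List.cons_eq_cons.1 hr).2
            cases w with
            | nil => simp at hbw
            | cons d w =>
              have h4 : [b, d] ∈ L := h.fac' haw ⟨[a], w, by simp⟩
              have hd : d = a := by
                rcases hs _ _ h4 with h5 | h5
                · exact absurd h5 hb
                · exact h5
              subst hd
              have h1 : d :: w ∈ L := h.fac' haw ⟨[d, b], [], by simp⟩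
              have h2 : w = [] ∨ ∃ r, w = r ++ [d] := by
                cases r with
                | nil => left; simpa using hbw
                | cons c r => right; exact ⟨r, by simpa using (List.cons_eq_cons.1 hbw).2⟩
              obtain ⟨w', hw'⟩ := ih w (by simp at hw; omega) h1 h2
              exact ⟨b :: w', by rw [psi_cons, hw', if_neg hb]; simp⟩

theorem decode' {L : Set (List α)} (h : Bs L) {a : α} (hs : Sep L a) {w : List α}
    (hw : a :: (w ++ [a]) ∈ L) : ∃ w' ∈ der L a, a :: w = psi a w' := by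
  obtain ⟨w', hw'⟩ := decode_psi h hs _ _ le_rfl hw (Or.inr ⟨_, rfl⟩)
  refine ⟨w', ?_, ?_⟩
  · change psi a w' ++ [a] ∈ L
    rw [← hw']; exact hw
  · have : (a :: w) ++ [a] = psi a w' ++ [a] := by rw [← hw']; simp
    exact List.append_cancel_right this

theorem der_bs {L : Set (List α)} (h : Bs L) {a : α} (ha : [a] ∈ L) (hs : Sep L a) :
    Bs (der L a) := by
  refine ⟨?_, ?_, ?_⟩
  · intro x w y hxy
    change psi a (x ++ w ++ y) ++ [a] ∈ L at hxy
    change psi a w ++ [a] ∈ L
    obtain ⟨r, hr⟩ := psi_head a y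
    rw [psi_append, psi_append, List.append_assoc _ _ [a], hr] at hxy
    exact h.fac' hxy ⟨psi a x, r, by simp⟩
  · intro w hw w' hw'
    change psi a w ++ [a] ∈ L at hw
    change psi a w' ++ [a] ∈ L at hw'
    obtain ⟨t, ht⟩ := h.conn _ hw _ hw'
    obtain ⟨r, hr⟩ := psi_head a w'
    have h1 : a :: (t ++ [a]) ∈ L := by
      rw [hr] at ht
      exact h.fac' ht ⟨psi a w, r, by simp⟩
    obtain ⟨t', _, h2⟩ := decode' h hs h1
    refine ⟨t', ?_⟩
    change psi a (w ++ t' ++ w') ++ [a] ∈ L
    rw [psi_append, psi_append, ← h2]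
    have : psi a w ++ a :: t ++ psi a w' ++ [a] = psi a w ++ [a] ++ t ++ (psi a w' ++ [a]) := by simp
    rw [this]
    exact ht
  · obtain ⟨t, ht⟩ := h.conn _ ha _ ha
    obtain ⟨w', hw', h2⟩ := decode' h hs (w := t) (by simpa using ht)
    cases w' with
    | nil => rw [psi_nil] at h2; simp at h2
    | cons b w' =>
      refine ⟨b, ?_⟩
      change psi a [b] ++ [a] ∈ L
      change psi a (b :: w') ++ [a] ∈ L at hw'
      obtain ⟨r, hr⟩ := psi_head a w'
      rw [show b :: w' = [b] ++ w' by rfl, psi_append, List.append_assoc, hr] at hw'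
      exact h.fac' hw' ⟨[], r, by simp⟩

theorem der_LSu {L : Set (List α)} (h : Bs L) (hL : LSu L) {a : α} : LSu (der L a) := by
  intro w w' a1 b1 a2 b2 h1 h2 k1 k2 k3 k4 hlen
  have last : ∀ (c : α) (w : List α), c :: w ∈ der L a → c :: (psi a w ++ [a]) ∈ L := by
    intro c w hc
    change psi a (c :: w) ++ [a] ∈ L at hc
    rw [psi_cons] at hc
    by_cases hca : c = a
    · subst hca
      simpa using hc
    · rw [if_neg hca] at hc
      exact h.fac' hc ⟨[a], [], by simp⟩
  have main : ∀ (w w' : List α) (a1 b1 a2 b2 : α), a1 ≠ b1 → a2 ≠ b2 → a1 :: w ∈ der L a →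
      b1 :: w ∈ der L a → a2 :: w' ∈ der L a → b2 :: w' ∈ der L a → w.length = w'.length →
      (psi a w).length ≤ (psi a w').length → w = w' := by
    intro w w' a1 b1 a2 b2 h1 h2 k1 k2 k3 k4 hlen hle
    have e1 := last _ _ k1
    have e2 := last _ _ k2
    have e3 := last _ _ k3
    have e4 := last _ _ k4
    have hpre : (psi a w' ++ [a]).take (psi a w ++ [a]).length <+: psi a w' ++ [a] :=
      List.take_prefix _ _
    have hlen2 : ((psi a w' ++ [a]).take (psi a w ++ [a]).length).length =
        (psi a w ++ [a]).length := by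
      rw [List.length_take]
      simp
      omega
    have e5 : a2 :: (psi a w' ++ [a]).take (psi a w ++ [a]).length ∈ L :=
      h.fac' e3 (List.IsPrefix.isInfix (List.cons_prefix_cons.2 ⟨rfl, hpre⟩))
    have e6 : b2 :: (psi a w' ++ [a]).take (psi a w ++ [a]).length ∈ L :=
      h.fac' e4 (List.IsPrefix.isInfix (List.cons_prefix_cons.2 ⟨rfl, hpre⟩))
    have e7 := hL _ _ _ _ _ _ h1 h2 e1 e2 e5 e6 hlen2.symm
    have e8 : psi a w ++ [a] <+: psi a w' ++ [a] := by
      rw [e7]; exact hpre
    have e9 := psi_inj_prefix a w w' e8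
    exact e9.eq_of_length hlen
  rcases le_total (psi a w).length (psi a w').length with hle | hle
  · exact main w w' a1 b1 a2 b2 h1 h2 k1 k2 k3 k4 hlen hle
  · exact (main w' w a2 b2 a1 b1 h2 h1 k3 k4 k1 k2 hlen.symm hle).symm

/-- a word of length at least two lies in `psi w' a` with `w'` shorter -/
theorem shrink {L : Set (List α)} (h : Bs L) {a : α} (hs : Sep L a) {w : List α} (hw : w ∈ L)
    {x y : α} {m : List α} (hxy : w = x :: (m ++ [y])) :
    ∃ w' ∈ der L a, ∃ p q, psi a w' ++ [a] = p ++ w ++ q ∧ w'.length < w.length := by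
  -- extend to the left
  obtain ⟨p, hp1, hp2, hp3⟩ : ∃ p : List α, p ++ w ∈ L ∧ (∃ r, p ++ w = a :: r) ∧
      ((p = [] ∧ x = a) ∨ (p = [a] ∧ x ≠ a)) := by
    by_cases hx : x = a
    · exact ⟨[], by simpa using hw, ⟨m ++ [y], by rw [hxy, hx]; rfl⟩, Or.inl ⟨rfl, hx⟩⟩
    · obtain ⟨c, hc⟩ := h.ext_left hw
      have hca : c = a := by
        have : [c, x] ∈ L := h.fac' hc ⟨[], m ++ [y], by rw [hxy]; simp⟩
        rcases hs _ _ this with h1 | h1
        · exact h1
        · exact absurd h1 hx
      exact ⟨[a], by rw [← hca]; exact hc, ⟨w, rfl⟩, Or.inr ⟨rfl, hx⟩⟩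
  obtain ⟨q, hq1, hq2, hq3⟩ : ∃ q : List α, p ++ w ++ q ∈ L ∧ (∃ r, p ++ w ++ q = r ++ [a]) ∧
      ((q = [] ∧ y = a) ∨ (q = [a] ∧ y ≠ a)) := by
    by_cases hy : y = a
    · exact ⟨[], by simpa using hp1, ⟨p ++ x :: m, by rw [hxy, hy]; simp⟩, Or.inl ⟨rfl, hy⟩⟩
    · obtain ⟨c, hc⟩ := h.ext_right hp1
      have hca : c = a := by
        have : [y, c] ∈ L := h.fac' hc ⟨p ++ x :: m, [], by rw [hxy]; simp⟩
        rcases hs _ _ this with h1 | h1
        · exact absurd h1 hy
        · exact h1
      exact ⟨[a], by rw [← hca]; exact hc, ⟨p ++ w, rfl⟩, Or.inr ⟨rfl, hy⟩⟩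
  obtain ⟨r, hr⟩ := hp2
  obtain ⟨r', hr'⟩ := hq2
  have hz : p ++ w ++ q = a :: (r ++ q) := by rw [hr]; rfl
  have hend : r ++ q = [] ∨ ∃ s, r ++ q = s ++ [a] := by
    rw [hz] at hr'
    cases r' with
    | nil => left; simpa using (List.cons_eq_cons.1 hr').2
    | cons c r' => right; exact ⟨r', (List.cons_eq_cons.1 hr').2⟩
  rw [hz] at hq1
  obtain ⟨w', hw'⟩ := decode_psi h hs _ _ le_rfl hq1 hend
  refine ⟨w', ?_, p, q, ?_, ?_⟩
  · change psi a w' ++ [a] ∈ L
    rw [← hw']; exact hq1
  · rw [← hw', hz]
  · have e1 : psi a w' ++ [a] = p ++ w ++ q := by rw [← hw', hz]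
    have e2 := congrArg List.length e1
    have e3 := congrArg (List.countP (fun b => decide (b ≠ a))) e1
    rw [List.length_append, psi_length] at e2
    rw [List.countP_append, psi_count] at e3
    rcases hp3 with ⟨hp, hx⟩ | ⟨hp, hx⟩ <;> rcases hq3 with ⟨hq, hy⟩ | ⟨hq, hy⟩ <;>
      simp [hp, hq, hxy, hx, hy] at e2 e3 ⊢ <;> omega

end words

/-- the letters -/
abbrev A := ZMod 2

theorem bin (x : A) : x = 0 ∨ x = 1 := by
  revert x; decide

/-- existence of a separating letter -/
theorem exists_sep {L : Set (List A)} (h : Bs L) (hL : LSu L) : ∃ a, [a] ∈ L ∧ Sep L a := by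
  by_cases h0 : [(0 : A)] ∈ L
  · by_cases h1 : [(1 : A)] ∈ L
    · by_cases h11 : [(1 : A), 1] ∈ L
      · refine ⟨1, h1, ?_⟩
        intro x y hxy
        by_contra hne
        push Not at hne
        have hx : x = 0 := (bin x).resolve_right hne.1
        have hy : y = 0 := (bin y).resolve_right hne.2
        subst hx; subst hy
        -- 01 and 10 are in L
        have key : ∀ c d : A, [c] ∈ L → [d] ∈ L → c ≠ d → [c, d] ∈ L := by
          intro c d hc hd hcd
          obtain ⟨t, ht⟩ := h.conn _ hc _ hd
          have : ∀ (t : List A), [c] ++ t ++ [d] ∈ L → [c, d] ∈ L := by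
            intro t
            induction t with
            | nil => intro h2; simpa using h2
            | cons e t ih =>
              intro h2
              by_cases hec : e = c
              · apply ih
                exact h.fac' h2 ⟨[c], [], by rw [hec]; simp⟩
              · have hed : e = d := by
                  rcases bin e with h3 | h3 <;> rcases bin c with h4 | h4 <;>
                    rcases bin d with h5 | h5 <;> simp_all
                exact h.fac' h2 ⟨[], t ++ [d], by rw [hed]; simp⟩
          exact this t ht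
        have h01 := key 0 1 h0 h1 (by decide)
        have h10 := key 1 0 h1 h0 (by decide)
        have := hL [0] [1] 0 1 0 1 (by decide) (by decide) hxy h10 h01 h11 rfl
        simp at this
      · refine ⟨0, h0, ?_⟩
        intro x y hxy
        rcases bin x with hx | hx
        · exact Or.inl hx
        · rcases bin y with hy | hy
          · exact Or.inr hy
          · rw [hx, hy] at hxy
            exact absurd hxy h11
    · refine ⟨0, h0, ?_⟩
      intro x y hxy
      left
      rcases bin x with hx | hx
      · exact hx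
      · exfalso
        apply h1
        rw [← hx]
        exact h.fac' hxy ⟨[], [y], rfl⟩
  · obtain ⟨c, hc⟩ := h.ne
    have hc1 : c = 1 := by
      rcases bin c with h2 | h2
      · rw [h2] at hc; exact absurd hc h0
      · exact h2
    subst hc1
    refine ⟨1, hc, ?_⟩
    intro x y hxy
    left
    rcases bin x with hx | hx
    · exfalso
      apply h0
      rw [← hx]
      exact h.fac' hxy ⟨[], [y], rfl⟩
    · exact hx

/-- such a language is closed under reversal -/
theorem closed_rev : ∀ (N : ℕ) (L : Set (List A)), Bs L → LSu L → LSu (revL L) →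
    ∀ w ∈ L, w.length ≤ N → w.reverse ∈ L := by
  intro N
  induction N with
  | zero =>
    intro L h _ _ w hw hlen
    have : w = [] := List.length_eq_zero_iff.1 (by omega)
    subst this
    exact hw
  | succ N ih =>
    intro L h h1 h2 w hw hlen
    obtain ⟨a, ha, hs⟩ := exists_sep h h1
    match w, hw, hlen with
    | [], hw, _ => exact hw
    | [x], hw, _ => exact hw
    | x :: y :: w, hw, hlen =>
      rcases List.eq_nil_or_concat (y :: w) with h3 | ⟨m, z, h3⟩
      · simp at h3
      · rw [List.concat_eq_append] at h3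
        obtain ⟨w', hw', p, q, h4, h5⟩ := shrink h hs hw (x := x) (m := m) (y := z) (by rw [h3])
        have h6 := ih (der L a) (der_bs h ha hs) (der_LSu h h1)
          (by rw [← der_rev]; exact der_LSu h.rev h2) w' hw' (by omega)
        have h7 : (psi a w' ++ [a]).reverse ∈ L := by rw [psi_reverse]; exact h6
        rw [h4] at h7
        exact h.fac' h7 ⟨q.reverse, p.reverse, by simp⟩

section partB

/-- the block of length `n` of `x` at position `i` -/
def fac (x : ℕ → A) (i n : ℕ) : List A := (List.range n).map (fun j => x (i + j))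

/-- the set of factors of `x` -/
def factors (x : ℕ → A) : Set (List A) := {w | ∃ i n, w = fac x i n}

/-- words of length `n` of a language -/
def lv (L : Set (List A)) (n : ℕ) : Set (List A) := {w | w ∈ L ∧ w.length = n}

/-- The factor complexity: the number of factors of length `n`. -/
noncomputable def C (x : ℕ → A) (n : ℕ) : ℕ := (lv (factors x) n).ncard

/-- Sturmian words. -/
def Sturmian (u : ℕ → A) : Prop := ∀ n, C u n = n + 1

@[simp] theorem fac_length (x : ℕ → A) (i n : ℕ) : (fac x i n).length = n := by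
  simp [fac]

@[simp] theorem fac_zero (x : ℕ → A) (i : ℕ) : fac x i 0 = [] := rfl

theorem fac_add (x : ℕ → A) (i a b : ℕ) : fac x i (a + b) = fac x i a ++ fac x (i + a) b := by
  unfold fac
  rw [List.range_add, List.map_append, List.map_map]
  congr 1
  apply List.map_congr_left
  intro j _
  simp only [Function.comp]
  congr 1
  omega

theorem fac_one (x : ℕ → A) (i : ℕ) : fac x i 1 = [x i] := by simp [fac]

theorem fac_succ (x : ℕ → A) (i n : ℕ) : fac x i (n + 1) = x i :: fac x (i + 1) n := by
  rw [Nat.add_comm, fac_add, fac_one]; rfl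

theorem fac_succ' (x : ℕ → A) (i n : ℕ) : fac x i (n + 1) = fac x i n ++ [x (i + n)] := by
  rw [fac_add, fac_one]

theorem fac_mem (x : ℕ → A) (i n : ℕ) : fac x i n ∈ factors x := ⟨i, n, rfl⟩

/-- decompositions of blocks -/
theorem fac_decomp {x : ℕ → A} {i n : ℕ} {a b : List A} (h : fac x i n = a ++ b) :
    a = fac x i a.length ∧ b = fac x (i + a.length) b.length := by
  have h1 : n = a.length + b.length := by
    have := congrArg List.length h
    simpa using this
  rw [h1, fac_add] at h
  have h2 := List.append_inj_left h (by simp)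
  have h3 := List.append_inj_right h (by simp)
  exact ⟨h2.symm, h3.symm⟩

theorem fac_decomp3 {x : ℕ → A} {i n : ℕ} {a b c : List A} (h : fac x i n = a ++ b ++ c) :
    b = fac x (i + a.length) b.length := by
  obtain ⟨h1, _⟩ := fac_decomp h
  exact (fac_decomp h1.symm).2

theorem fac_infix (x : ℕ → A) {i n j m : ℕ} (h1 : i ≤ j) (h2 : j + m ≤ i + n) :
    fac x j m <:+: fac x i n := by
  obtain ⟨a, rfl⟩ := Nat.exists_eq_add_of_le h1
  obtain ⟨b, hb⟩ := Nat.exists_eq_add_of_le h2
  refine ⟨fac x i a, fac x (i + a + m) b, ?_⟩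
  rw [show n = a + m + b by omega, fac_add, fac_add, Nat.add_assoc]

theorem factors_fac {x : ℕ → A} (a w b : List A) (h : a ++ w ++ b ∈ factors x) :
    w ∈ factors x := by
  obtain ⟨i, n, h⟩ := h
  rw [fac_decomp3 h.symm]
  exact fac_mem _ _ _

theorem lv_finite (L : Set (List A)) (n : ℕ) : (lv L n).Finite :=
  (List.finite_length_eq A n).subset fun _ hw => hw.2

/-- words of length `n` which can be followed by both letters -/
def RS (L : Set (List A)) (n : ℕ) : Set (List A) :=
  {w | w.length = n ∧ w ++ [0] ∈ L ∧ w ++ [1] ∈ L}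

theorem RS_finite (L : Set (List A)) (n : ℕ) : (RS L n).Finite :=
  (List.finite_length_eq A n).subset fun _ hw => hw.1

theorem card_succ {L : Set (List A)} (hf : ∀ x w y, x ++ w ++ y ∈ L → w ∈ L)
    (he : ∀ w ∈ L, ∃ c, w ++ [c] ∈ L) (n : ℕ) :
    (lv L (n + 1)).ncard = (lv L n).ncard + (RS L n).ncard := by
  have hA : ∀ c : A, {w : List A | w.length = n ∧ w ++ [c] ∈ L}.Finite := fun c =>
    (List.finite_length_eq A n).subset fun _ hw => hw.1
  have h1 : lv L (n + 1) = (fun w : List A => w ++ [0]) '' {w : List A | w.length = n ∧ w ++ [0] ∈ L} ∪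
      (fun w : List A => w ++ [1]) '' {w : List A | w.length = n ∧ w ++ [1] ∈ L} := by
    ext w
    constructor
    · rintro ⟨h1, h2⟩
      rcases List.eq_nil_or_concat w with h3 | ⟨v, c, h3⟩
      · rw [h3] at h2; simp at h2
      · rw [List.concat_eq_append] at h3
        have h4 : v.length = n := by rw [h3] at h2; simpa using h2
        rcases bin c with h5 | h5
        · left
          exact ⟨v, ⟨h4, by rw [← h5, ← h3]; exact h1⟩, by rw [h3, h5]⟩
        · right
          exact ⟨v, ⟨h4, by rw [← h5, ← h3]; exact h1⟩, by rw [h3, h5]⟩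
    · rintro (⟨v, ⟨h1, h2⟩, rfl⟩ | ⟨v, ⟨h1, h2⟩, rfl⟩)
      · exact ⟨h2, by simp [h1]⟩
      · exact ⟨h2, by simp [h1]⟩
  have hinj : ∀ c : A, Function.Injective (fun w : List A => w ++ [c]) := fun c v w h =>
    List.append_cancel_right h
  have h2 : Disjoint ((fun w : List A => w ++ [0]) '' {w : List A | w.length = n ∧ w ++ [0] ∈ L})
      ((fun w : List A => w ++ [1]) '' {w : List A | w.length = n ∧ w ++ [1] ∈ L}) := by
    rw [Set.disjoint_left]
    rintro z ⟨v, _, rfl⟩ ⟨w, _, h⟩
    have := List.append_inj_right' h rfl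
    simp at this
  rw [h1, Set.ncard_union_eq h2 ((hA 0).image _) ((hA 1).image _),
    Set.ncard_image_of_injective _ (hinj 0), Set.ncard_image_of_injective _ (hinj 1),
    ← Set.ncard_union_add_ncard_inter _ _ (hA 0) (hA 1)]
  congr 2
  · ext w
    constructor
    · rintro (⟨h3, h4⟩ | ⟨h3, h4⟩)
      · exact ⟨hf [] w [0] (by simpa using h4), h3⟩
      · exact ⟨hf [] w [1] (by simpa using h4), h3⟩
    · rintro ⟨h3, h4⟩
      obtain ⟨c, hc⟩ := he w h3
      rcases bin c with h5 | h5
      · left; exact ⟨h4, by rw [← h5]; exact hc⟩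
      · right; exact ⟨h4, by rw [← h5]; exact hc⟩
  · ext w
    constructor
    · rintro ⟨⟨h3, h4⟩, _, h5⟩
      exact ⟨h3, h4, h5⟩
    · rintro ⟨h3, h4, h5⟩
      exact ⟨⟨h3, h4⟩, h3, h5⟩

theorem factors_ext (x : ℕ → A) : ∀ w ∈ factors x, ∃ c, w ++ [c] ∈ factors x := by
  rintro w ⟨i, n, rfl⟩
  exact ⟨x (i + n), i, n + 1, (fac_succ' x i n).symm⟩

theorem C_zero (x : ℕ → A) : C x 0 = 1 := by
  have : lv (factors x) 0 = {[]} := by
    ext w
    constructor
    · rintro ⟨_, h⟩
      exact List.length_eq_zero_iff.1 h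
    · rintro rfl
      exact ⟨⟨0, 0, rfl⟩, rfl⟩
  rw [C, this]
  simp

/-- a factor of a Sturmian word occurs at arbitrarily large positions -/
theorem recurrent {u : ℕ → A} (hu : Sturmian u) {w : List A} (hw : w ∈ factors u) (K : ℕ) :
    ∃ i, K ≤ i ∧ w = fac u i w.length := by
  by_contra hno
  push Not at hno
  obtain ⟨v, hv⟩ : ∃ v : ℕ → A, v = fun i => u (K + i) := ⟨_, rfl⟩
  have hfv : ∀ i n, fac v i n = fac u (K + i) n := by
    intro i n
    simp [fac, hv, Nat.add_assoc]
  have hsub : ∀ n, lv (factors v) n ⊆ lv (factors u) n := by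
    rintro n _ ⟨⟨i, m, rfl⟩, h⟩
    exact ⟨by rw [hfv]; exact fac_mem _ _ _, h⟩
  have hwn : w ∉ factors v := by
    rintro ⟨i, n, h⟩
    rw [hfv] at h
    have h1 : w.length = n := by rw [h]; simp
    exact hno (K + i) (by omega) (by rw [h1]; exact h)
  have hlt : C v w.length < C u w.length :=
    Set.ncard_lt_ncard (Set.ssubset_iff_subset_ne.2 ⟨hsub _, fun h => hwn (by
      have : w ∈ lv (factors u) w.length := ⟨hw, rfl⟩
      rw [← h] at this
      exact this.1)⟩) (lv_finite _ _)
  rw [hu] at hlt
  have hsucc : ∀ n, C v (n + 1) = C v n + (RS (factors v) n).ncard := fun n =>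
    card_succ (fun a w b => factors_fac a w b) (factors_ext v) n
  -- some level has no right special word
  have hex : ∃ m, (RS (factors v) m).ncard = 0 := by
    by_contra hne
    push Not at hne
    have : ∀ n, n + 1 ≤ C v n := by
      intro n
      induction n with
      | zero => rw [C_zero]
      | succ n ih =>
        have := hne n
        rw [hsucc]
        omega
    have := this w.length
    omega
  obtain ⟨m, hm⟩ := hex
  have hm' : ∀ k, RS (factors v) (m + k) = ∅ := by
    intro k
    rw [Set.ncard_eq_zero (RS_finite _ _)] at hm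
    rw [Set.eq_empty_iff_forall_notMem] at hm ⊢
    rintro z ⟨h1, h2, h3⟩
    apply hm (z.drop k)
    refine ⟨by simp; omega, ?_, ?_⟩
    · apply factors_fac (z.take k) _ []
      rw [List.append_nil, ← List.append_assoc, List.take_append_drop]
      exact h2
    · apply factors_fac (z.take k) _ []
      rw [List.append_nil, ← List.append_assoc, List.take_append_drop]
      exact h3
  have hconst : ∀ k, C v (m + k) = C v m := by
    intro k
    induction k with
    | zero => rfl
    | succ k ih =>
      rw [← Nat.add_assoc, hsucc, hm', ih]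
      simp
  have hle : ∀ k, C u k ≤ K + C v k := by
    intro k
    have h1 : lv (factors u) k ⊆ (fun i => fac u i k) '' (Finset.range K : Set ℕ) ∪
        lv (factors v) k := by
      rintro _ ⟨⟨i, n, rfl⟩, h⟩
      rw [fac_length] at h
      subst h
      by_cases hi : i < K
      · left; exact ⟨i, by simpa using hi, rfl⟩
      · right
        refine ⟨⟨i - K, n, ?_⟩, by simp⟩
        rw [hfv]
        congr 1
        omega
    calc C u k ≤ _ := Set.ncard_le_ncard h1 (((Finset.range K).finite_toSet.image _).union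
          (lv_finite _ _))
      _ ≤ _ := Set.ncard_union_le _ _
      _ ≤ _ := by
        apply Nat.add_le_add_right
        refine (Set.ncard_image_le (Finset.range K).finite_toSet).trans ?_
        rw [Set.ncard_coe_finset]
        simp
  have h2 := hle (m + (K + C v m))
  rw [hconst, hu] at h2
  omega

theorem sturm_bs {u : ℕ → A} (hu : Sturmian u) : Bs (factors u) := by
  refine ⟨fun a w b => factors_fac a w b, ?_, ⟨u 0, 0, 1, by simp [fac]⟩⟩
  rintro w ⟨i, n, hw⟩ w' hw'
  obtain ⟨j, hj, h⟩ := recurrent hu hw' (i + n)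
  obtain ⟨k, rfl⟩ := Nat.exists_eq_add_of_le hj
  refine ⟨fac u (i + n) k, i, n + k + w'.length, ?_⟩
  rw [fac_add, fac_add, ← hw, ← Nat.add_assoc]
  congr 1

theorem revL_revL (L : Set (List A)) : revL (revL L) = L := by
  ext w
  change w.reverse.reverse ∈ L ↔ _
  rw [List.reverse_reverse]

theorem lv_rev (L : Set (List A)) (n : ℕ) : (lv (revL L) n).ncard = (lv L n).ncard := by
  have : lv (revL L) n = List.reverse '' (lv L n) := by
    ext w
    constructor
    · rintro ⟨h1, h2⟩
      exact ⟨w.reverse, ⟨h1, by simpa using h2⟩, by simp⟩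
    · rintro ⟨v, ⟨h1, h2⟩, rfl⟩
      exact ⟨by change v.reverse.reverse ∈ L; simpa using h1, by simpa using h2⟩
  rw [this, Set.ncard_image_of_injective _ List.reverse_injective]

theorem RS_card {L : Set (List A)} (h : Bs L) (hC : ∀ n, (lv L n).ncard = n + 1) (n : ℕ) :
    (RS L n).ncard = 1 := by
  have := card_succ h.fac (fun w hw => h.ext_right hw) n
  rw [hC, hC] at this
  omega

theorem RS_unique {L : Set (List A)} (h : Bs L) (hC : ∀ n, (lv L n).ncard = n + 1) {w w' : List A}
    (h1 : w ++ [0] ∈ L) (h2 : w ++ [1] ∈ L) (h3 : w' ++ [0] ∈ L) (h4 : w' ++ [1] ∈ L)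
    (h5 : w.length = w'.length) : w = w' := by
  obtain ⟨z, hz⟩ := Set.ncard_eq_one.1 (RS_card h hC w.length)
  have e1 : w ∈ RS L w.length := ⟨rfl, h1, h2⟩
  have e2 : w' ∈ RS L w.length := ⟨h5.symm, h3, h4⟩
  rw [hz] at e1 e2
  rw [e1, e2]

theorem RS_exists {L : Set (List A)} (h : Bs L) (hC : ∀ n, (lv L n).ncard = n + 1) (n : ℕ) :
    ∃ w, w.length = n ∧ w ++ [0] ∈ L ∧ w ++ [1] ∈ L := by
  obtain ⟨z, hz⟩ := Set.ncard_eq_one.1 (RS_card h hC n)
  have : z ∈ RS L n := by rw [hz]; rfl
  exact ⟨z, this⟩

theorem LSu_rev {L : Set (List A)} (h : Bs L) (hC : ∀ n, (lv L n).ncard = n + 1) :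
    LSu (revL L) := by
  have two : ∀ (w : List A) (a b : A), a ≠ b → w ++ [a] ∈ L → w ++ [b] ∈ L →
      w ++ [0] ∈ L ∧ w ++ [1] ∈ L := by
    intro w a b hab ha hb
    rcases bin a with h1 | h1 <;> rcases bin b with h2 | h2 <;> subst h1 <;> subst h2
    · exact absurd rfl hab
    · exact ⟨ha, hb⟩
    · exact ⟨hb, ha⟩
    · exact absurd rfl hab
  intro w w' a b a' b' hab hab' h1 h2 h3 h4 hlen
  change (a :: w).reverse ∈ L at h1
  change (b :: w).reverse ∈ L at h2
  change (a' :: w').reverse ∈ L at h3
  change (b' :: w').reverse ∈ L at h4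
  rw [List.reverse_cons] at h1 h2 h3 h4
  obtain ⟨e1, e2⟩ := two _ _ _ hab h1 h2
  obtain ⟨e3, e4⟩ := two _ _ _ hab' h3 h4
  have := RS_unique h hC e1 e2 e3 e4 (by simpa using hlen)
  exact List.reverse_injective this

theorem LSu_of {L : Set (List A)} (h : Bs L) (hC : ∀ n, (lv L n).ncard = n + 1) : LSu L := by
  have := LSu_rev h.rev (fun n => by rw [lv_rev]; exact hC n)
  rwa [revL_revL] at this

theorem sturm_rev {u : ℕ → A} (hu : Sturmian u) : ∀ w ∈ factors u, w.reverse ∈ factors u :=
  fun w hw => closed_rev w.length _ (sturm_bs hu) (LSu_of (sturm_bs hu) hu)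
    (LSu_rev (sturm_bs hu) hu) w hw le_rfl

end partB

section partC

/-- palindromes of length `n` and with sum of letters `s` -/
def pals (L : Set (List A)) (n : ℕ) (s : A) : Set (List A) :=
  {w | w ∈ L ∧ w.length = n ∧ w.reverse = w ∧ w.sum = s}

theorem pals_finite (L : Set (List A)) (n : ℕ) (s : A) : (pals L n s).Finite :=
  (List.finite_length_eq A n).subset fun _ hw => hw.2.1

theorem add_self (x : A) : x + x = 0 := by
  revert x; decide

/-- every palindrome of a Sturmian language has exactly one palindromic extension -/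
theorem pal_ext {L : Set (List A)} (h : Bs L) (hC : ∀ n, (lv L n).ncard = n + 1)
    (hr : ∀ w ∈ L, w.reverse ∈ L) {P : List A} (hP : P ∈ L) (hPr : P.reverse = P) :
    ∃ x, x :: (P ++ [x]) ∈ L := by
  have rv : ∀ c, P ++ [c] ∈ L → c :: P ∈ L := by
    intro c hc
    have := hr _ hc
    simpa [hPr] using this
  have rv' : ∀ c, c :: P ∈ L → P ++ [c] ∈ L := by
    intro c hc
    have := hr _ hc
    simpa [hPr] using this
  by_cases hs : P ++ [0] ∈ L ∧ P ++ [1] ∈ L
  · obtain ⟨W, hW1, hW2, hW3⟩ := RS_exists h hC (P.length + 1)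
    cases W with
    | nil => simp at hW1
    | cons x W =>
      have h1 : W = P := by
        apply RS_unique h hC (h.fac' hW2 ⟨[x], [], by simp⟩) (h.fac' hW3 ⟨[x], [], by simp⟩)
          hs.1 hs.2
        simpa using hW1
      subst h1
      refine ⟨x, ?_⟩
      rcases bin x with hx | hx
      · rw [hx] at hW2 ⊢; exact hW2
      · rw [hx] at hW3 ⊢; exact hW3
  · obtain ⟨c, hc⟩ := h.ext_right hP
    obtain ⟨d, hd⟩ := h.ext_left hc
    have h1 : d :: P ∈ L := h.fac' hd ⟨[], [c], by simp⟩
    have h2 := rv' d h1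
    have h3 : d = c := by
      rcases bin c with h3 | h3 <;> rcases bin d with h4 | h4 <;> subst h3 <;> subst h4
      · rfl
      · exact absurd ⟨hc, h2⟩ hs
      · exact absurd ⟨h2, hc⟩ hs
      · rfl
    subst h3
    exact ⟨d, hd⟩

theorem pal_ext_unique {L : Set (List A)} (h : Bs L) (hC : ∀ n, (lv L n).ncard = n + 1)
    (hr : ∀ w ∈ L, w.reverse ∈ L) {P : List A} (hPr : P.reverse = P)
    {x y : A} (hx : x :: (P ++ [x]) ∈ L) (hy : y :: (P ++ [y]) ∈ L) : x = y := by
  have main : 0 :: (P ++ [0]) ∈ L → 1 :: (P ++ [1]) ∈ L → False := by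
    intro h0 h1
    have p0 : P ++ [0] ∈ L := h.fac' h0 ⟨[0], [], by simp⟩
    have p1 : P ++ [1] ∈ L := h.fac' h1 ⟨[1], [], by simp⟩
    obtain ⟨W, hW1, hW2, hW3⟩ := RS_exists h hC (P.length + 1)
    cases W with
    | nil => simp at hW1
    | cons x W =>
      have h2 : W = P := by
        apply RS_unique h hC (h.fac' hW2 ⟨[x], [], by simp⟩) (h.fac' hW3 ⟨[x], [], by simp⟩)
          p0 p1
        simpa using hW1
      subst h2
      -- both `0W` and `1W` are right special
      have key : ∀ c, c :: (W ++ [0]) ∈ L ∧ c :: (W ++ [1]) ∈ L := by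
        have r01 : 1 :: (W ++ [0]) ∈ L → 0 :: (W ++ [1]) ∈ L := by
          intro h3
          have := hr _ h3
          simpa [hPr] using this
        have r10 : 0 :: (W ++ [1]) ∈ L → 1 :: (W ++ [0]) ∈ L := by
          intro h3
          have := hr _ h3
          simpa [hPr] using this
        rcases bin x with hx | hx
        · subst hx
          have h4 : 0 :: (W ++ [1]) ∈ L := hW3
          intro c
          rcases bin c with hc | hc <;> subst hc
          · exact ⟨h0, h4⟩
          · exact ⟨r10 h4, h1⟩
        · subst hx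
          have h4 : 1 :: (W ++ [0]) ∈ L := hW2
          intro c
          rcases bin c with hc | hc <;> subst hc
          · exact ⟨h0, r01 h4⟩
          · exact ⟨h4, h1⟩
      have := RS_unique h hC (w := 0 :: W) (w' := 1 :: W) (key 0).1 (key 0).2 (key 1).1 (key 1).2 rfl
      simp at this
  rcases bin x with h1 | h1 <;> rcases bin y with h2 | h2 <;> subst h1 <;> subst h2
  · rfl
  · exact (main hx hy).elim
  · exact (main hy hx).elim
  · rfl

/-- decomposition of a palindrome -/
theorem pal_decomp {w : List A} {n : ℕ} (hw : w.reverse = w) (hn : w.length = n + 2) :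
    ∃ x P, w = x :: (P ++ [x]) ∧ P.reverse = P ∧ P.length = n := by
  cases w with
  | nil => simp at hn
  | cons x v =>
    rcases List.eq_nil_or_concat v with h | ⟨P, y, h⟩
    · subst h; simp at hn
    · rw [List.concat_eq_append] at h
      subst h
      have h1 : y :: (P.reverse ++ [x]) = x :: (P ++ [y]) := by simpa using hw
      obtain ⟨h2, h3⟩ := List.cons_eq_cons.1 h1
      subst h2
      exact ⟨y, P, rfl, List.append_cancel_right h3, by simpa using hn⟩

theorem sum_ext (x : A) (P : List A) : (x :: (P ++ [x])).sum = P.sum := by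
  rw [List.sum_cons, List.sum_append, List.sum_singleton, add_comm P.sum, ← add_assoc, add_self,
    zero_add]

theorem pals_succ {L : Set (List A)} (h : Bs L) (hC : ∀ n, (lv L n).ncard = n + 1)
    (hr : ∀ w ∈ L, w.reverse ∈ L) (n : ℕ) (s : A) :
    (pals L (n + 2) s).ncard = (pals L n s).ncard := by
  have h1 : (fun w : List A => w.tail.dropLast) '' (pals L (n + 2) s) = pals L n s := by
    ext P
    constructor
    · rintro ⟨w, ⟨h1, h2, h3, h4⟩, rfl⟩
      obtain ⟨x, P, rfl, hP, hn⟩ := pal_decomp h3 h2
      rw [sum_ext] at h4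
      have : (x :: (P ++ [x])).tail.dropLast = P := by simp
      change (x :: (P ++ [x])).tail.dropLast ∈ _
      rw [this]
      exact ⟨h.fac' h1 ⟨[x], [x], by simp⟩, hn, hP, h4⟩
    · rintro ⟨h1, h2, h3, h4⟩
      obtain ⟨x, hx⟩ := pal_ext h hC hr h1 h3
      refine ⟨x :: (P ++ [x]), ⟨hx, by simp [h2], by simp [h3], by rw [sum_ext]; exact h4⟩, ?_⟩
      simp
  rw [← h1]
  symm
  apply Set.ncard_image_of_injOn
  rintro w ⟨h1, h2, h3, h4⟩ w' ⟨h1', h2', h3', h4'⟩ hww
  obtain ⟨x, P, rfl, hP, hn⟩ := pal_decomp h3 h2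
  obtain ⟨x', P', rfl, hP', hn'⟩ := pal_decomp h3' h2'
  have e : P = P' := by simpa using hww
  subst e
  have := pal_ext_unique h hC hr hP h1 h1'
  rw [this]

/-- exactly one palindrome of each length has even sum -/
theorem pals_zero {L : Set (List A)} (h : Bs L) (hC : ∀ n, (lv L n).ncard = n + 1)
    (hr : ∀ w ∈ L, w.reverse ∈ L) : ∀ n, (pals L n 0).ncard = 1 := by
  have h0 : (pals L 0 0).ncard = 1 := by
    have : pals L 0 0 = {[]} := by
      ext w
      constructor
      · rintro ⟨_, h1, _⟩
        exact List.length_eq_zero_iff.1 h1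
      · rintro rfl
        exact ⟨h.nil_mem, rfl, rfl, rfl⟩
    rw [this]; simp
  have h1 : (pals L 1 0).ncard = 1 := by
    have : pals L 1 0 = {[0]} := by
      ext w
      constructor
      · rintro ⟨_, h1, _, h2⟩
        obtain ⟨c, rfl⟩ := List.length_eq_one_iff.1 h1
        rw [List.sum_singleton] at h2
        rw [h2]; rfl
      · rintro rfl
        refine ⟨?_, rfl, rfl, rfl⟩
        obtain ⟨W, hW1, hW2, hW3⟩ := RS_exists h hC 0
        exact h.fac' hW2 ⟨W, [], by simp⟩
    rw [this]; simp
  intro n
  induction n using Nat.strong_induction_on with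
  | _ n ih =>
    match n with
    | 0 => exact h0
    | 1 => exact h1
    | n + 2 => rw [pals_succ h hC hr]; exact ih n (by omega)

end partC

section partD

/-- left special words of all lengths exist -/
def LSx (L : Set (List A)) : Prop := ∀ n, ∃ w, w.length = n ∧ 0 :: w ∈ L ∧ 1 :: w ∈ L

theorem LSx_all {L : Set (List A)} (h : LSx L) (n : ℕ) : ∃ w, w.length = n ∧ ∀ c, c :: w ∈ L := by
  obtain ⟨w, h1, h2, h3⟩ := h n
  refine ⟨w, h1, fun c => ?_⟩
  rcases bin c with h4 | h4 <;> rw [h4]
  · exact h2
  · exact h3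

theorem ne_succ (a : A) : a + 1 ≠ a := by
  revert a; decide

theorem der_LSx {L : Set (List A)} (h : Bs L) (hx : LSx L) {a : A} (hs : Sep L a) :
    LSx (der L a) := by
  intro n
  obtain ⟨W, hW1, hW⟩ := LSx_all hx (2 * n + 2)
  cases W with
  | nil => simp at hW1
  | cons x W =>
    have hxa : x = a := by
      have h1 : [a + 1, x] ∈ L := h.fac' (hW (a + 1)) ⟨[], W, by simp⟩
      rcases hs _ _ h1 with h2 | h2
      · exact absurd h2 (ne_succ a)
      · exact h2
    subst hxa
    obtain ⟨v, t, hv1, hv2⟩ : ∃ v t, x :: W = psi x v ++ [x] ++ t ∧ n ≤ v.length := by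
      have hWL : x :: W ∈ L := h.fac' (hW x) ⟨[x], [], by simp⟩
      rcases List.eq_nil_or_concat W with h1 | ⟨V, d, h1⟩
      · subst h1; simp at hW1
      · rw [List.concat_eq_append] at h1
        by_cases hd : d = x
        · obtain ⟨v, hv⟩ := decode_psi h hs _ W le_rfl hWL (Or.inr ⟨V, by rw [h1, hd]⟩)
          refine ⟨v, [], by simpa using hv, ?_⟩
          have h2 := congrArg List.length hv
          have h3 := psi_length_le x v
          simp at h2 hW1
          omega
        · have hVL : x :: V ∈ L := h.fac' hWL ⟨[], [d], by rw [h1]; simp⟩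
          have hV : V = [] ∨ ∃ r, V = r ++ [x] := by
            rcases List.eq_nil_or_concat V with h2 | ⟨r, e, h2⟩
            · exact Or.inl h2
            · right
              rw [List.concat_eq_append] at h2
              have h3 : [e, d] ∈ L := h.fac' hWL ⟨x :: r, [], by rw [h1, h2]; simp⟩
              rcases hs _ _ h3 with h4 | h4
              · exact ⟨r, by rw [h2, h4]⟩
              · exact absurd h4 hd
          obtain ⟨v, hv⟩ := decode_psi h hs _ V le_rfl hVL hV
          refine ⟨v, [d], by rw [← hv, h1]; simp, ?_⟩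
          have h2 := congrArg List.length hv
          have h3 := psi_length_le x v
          simp [h1] at h2 hW1
          omega
    have key : ∀ c, c :: (psi x (v.take n) ++ [x]) ∈ L := by
      intro c
      obtain ⟨r, hr⟩ := psi_head x (v.drop n)
      apply h.fac' (hW c)
      refine ⟨[], r ++ t, ?_⟩
      rw [hv1]
      conv_rhs => rw [← List.take_append_drop n v, psi_append, List.append_assoc (psi x _) _ [x], hr]
      simp
    have key2 : ∀ c, c :: (v.take n) ∈ der L x := by
      intro c
      change psi x (c :: v.take n) ++ [x] ∈ L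
      rw [psi_cons]
      by_cases hc : c = x
      · rw [if_pos hc]
        exact key x
      · rw [if_neg hc]
        obtain ⟨d, hd⟩ := h.ext_left (key c)
        have h1 : [d, c] ∈ L := h.fac' hd ⟨[], psi x (v.take n) ++ [x], by simp⟩
        have h2 : d = x := by
          rcases hs _ _ h1 with h3 | h3
          · exact h3
          · exact absurd h3 hc
        rw [h2] at hd
        exact hd
    exact ⟨v.take n, by simp [hv2], key2 0, key2 1⟩

theorem prod_psi {G : Type} [Group G] (g : A → G) (a : A) (r : List A) :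
    ((psi a r).map g).prod = (r.map (fun c => ((psi a [c]).map g).prod)).prod := by
  induction r with
  | nil => simp [psi]
  | cons b r ih =>
    rw [show b :: r = [b] ++ r by rfl, psi_append, List.map_append, List.prod_append, ih]
    simp

theorem prod_conj {G : Type} [Group G] (g : A → G) (P : G) (r : List A) :
    (r.map (fun c => P⁻¹ * g c * P)).prod = P⁻¹ * (r.map g).prod * P := by
  induction r with
  | nil => simp
  | cons b r ih =>
    rw [List.map_cons, List.prod_cons, ih, List.map_cons, List.prod_cons]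
    group

/-- the returns to `w` generate -/
def Gen (L : Set (List A)) (w : List A) : Prop :=
  ∀ (G : Type) [Group G] (g : A → G) (H : Subgroup G),
    (∀ r, r ++ w ∈ L → w <+: r ++ w → (r.map g).prod ∈ H) → ∀ c, g c ∈ H

theorem gen_step {L : Set (List A)} (h : Bs L) {a : A} {w w' p q : List A}
    (hpq : psi a w' ++ [a] = p ++ w ++ q) (hG : Gen (der L a) w') : Gen L w := by
  intro G _ g H hH
  obtain ⟨P, hP⟩ : ∃ P, P = (p.map g).prod := ⟨_, rfl⟩
  have step : ∀ r', r' ++ w' ∈ der L a → w' <+: r' ++ w' →
      P⁻¹ * ((psi a r').map g).prod * P ∈ H := by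
    intro r' h1 h2
    have h3 : psi a r' ++ (p ++ w ++ q) ∈ L := by
      change psi a (r' ++ w') ++ [a] ∈ L at h1
      rw [psi_append, List.append_assoc, hpq] at h1
      exact h1
    have h4 : p ++ w ++ q <+: psi a r' ++ (p ++ w ++ q) := by
      obtain ⟨s, hs⟩ := h2
      obtain ⟨t, ht⟩ := psi_head a s
      rw [← hpq, ← List.append_assoc, ← psi_append, ← hs, psi_append, List.append_assoc (psi a w'),
        ht]
      exact ⟨t, by simp⟩
    have h5 : p <+: psi a r' ++ p := by
      apply List.prefix_of_prefix_length_le (l₃ := psi a r' ++ (p ++ w ++ q))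
      · exact (List.prefix_append p (w ++ q)).trans (by simpa using h4)
      · exact ⟨w ++ q, by simp⟩
      · simp
    obtain ⟨r, hr⟩ := h5
    have h6 : psi a r' ++ (p ++ w ++ q) = p ++ (r ++ w ++ q) := by
      have : psi a r' ++ (p ++ w ++ q) = (psi a r' ++ p) ++ w ++ q := by simp
      rw [this, ← hr]; simp
    rw [h6] at h3 h4
    have h7 : w ++ q <+: r ++ w ++ q := by
      rw [List.append_assoc p w q] at h4
      exact (List.prefix_append_right_inj p).1 h4
    have h8 : w <+: r ++ w := by
      apply List.prefix_of_prefix_length_le (l₃ := r ++ w ++ q)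
      · exact (List.prefix_append w q).trans h7
      · exact List.prefix_append _ _
      · simp
    have h9 := hH r (h.fac' h3 ⟨p, q, by simp⟩) h8
    have h10 : ((psi a r').map g).prod * P = P * (r.map g).prod := by
      rw [hP, ← List.prod_append, ← List.prod_append, ← List.map_append, ← List.map_append, ← hr]
    have h11 : P⁻¹ * ((psi a r').map g).prod * P = (r.map g).prod := by
      rw [mul_assoc, h10]; group
    rw [h11]
    exact h9
  have hc := hG G (fun c => P⁻¹ * ((psi a [c]).map g).prod * P) H (by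
    intro r' h1 h2
    rw [prod_conj, ← prod_psi]
    exact step r' h1 h2)
  have ha : P⁻¹ * g a * P ∈ H := by
    have := hc a
    simpa [psi] using this
  have hb : ∀ b, P⁻¹ * g b * P ∈ H := by
    intro b
    by_cases hba : b = a
    · rw [hba]; exact ha
    · have h1 := hc b
      have h2 : ((psi a [b]).map g).prod = g a * g b := by
        simp [psi, hba]
      simp only [h2] at h1
      have h3 := H.mul_mem (H.inv_mem ha) h1
      have h4 : (P⁻¹ * g a * P)⁻¹ * (P⁻¹ * (g a * g b) * P) = P⁻¹ * g b * P := by group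
      rw [h4] at h3
      exact h3
  have hv : ∀ v : List A, P⁻¹ * (v.map g).prod * P ∈ H := by
    intro v
    rw [← prod_conj]
    apply Subgroup.list_prod_mem
    intro x hx
    obtain ⟨b, _, rfl⟩ := List.mem_map.1 hx
    exact hb b
  have hPH : P ∈ H := by
    have := hv p
    rw [← hP] at this
    simpa using this
  intro c
  have h1 := H.mul_mem (H.mul_mem hPH (hb c)) (H.inv_mem hPH)
  have h2 : P * (P⁻¹ * g c * P) * P⁻¹ = g c := by group
  rw [h2] at h1
  exact h1

theorem gen_nil {L : Set (List A)} (h : Bs L) (hx : LSx L) : Gen L [] := by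
  intro G _ g H hH c
  obtain ⟨w, _, hw⟩ := LSx_all hx 0
  have h1 : [c] ∈ L := h.fac' (hw c) ⟨[], w, by simp⟩
  have := hH [c] (by simpa using h1) (by simp)
  simpa using this

theorem gen_single : ∀ (k : ℕ) (L : Set (List A)), Bs L → LSu L → LSx L → ∀ (b : A) (w : List A),
    w ∈ L → w.length ≤ k → 2 ≤ w.count b → Gen L [b] := by
  intro k
  induction k with
  | zero =>
    intro L _ _ _ b w _ h1 h2
    have : w = [] := List.length_eq_zero_iff.1 (by omega)
    subst this
    simp at h2
  | succ k ih =>
    intro L h hL hx b w hw h1 h2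
    obtain ⟨a, ha, hs⟩ := exists_sep h hL
    by_cases hba : b = a
    · apply gen_step (a := a) (w' := []) (p := []) (q := []) h
      · simp [psi_nil, hba]
      · exact gen_nil (der_bs h ha hs) (der_LSx h hx hs)
    · have hlen : 2 ≤ w.length := h2.trans List.count_le_length
      obtain ⟨x, m, y, hxy⟩ : ∃ x m y, w = x :: (m ++ [y]) := by
        match w, hlen with
        | x :: z :: w, _ =>
          rcases List.eq_nil_or_concat (z :: w) with h3 | ⟨m, y, h3⟩
          · simp at h3
          · rw [List.concat_eq_append] at h3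
            exact ⟨x, m, y, by rw [h3]⟩
      obtain ⟨w', hw', p, q, h4, h5⟩ := shrink h hs hw hxy
      have hcount : ∀ v : List A, (psi a v).count b = v.count b := by
        intro v
        induction v with
        | nil => rfl
        | cons c v ihv =>
          rw [psi_cons, List.count_append, ihv]
          by_cases hc : c = a
          · rw [if_pos hc]
            have h6 : ¬ (a = b) := fun h => hba h.symm
            simp [hc, h6]
          · rw [if_neg hc]
            have h6 : ¬ (a = b) := fun h => hba h.symm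
            simp [List.count_cons, h6]
            ring
      have h6 : w.count b ≤ w'.count b := by
        have h7 : (psi a w' ++ [a]).count b = w'.count b := by
          rw [List.count_append, hcount]
          have h8 : ¬ (a = b) := fun h => hba h.symm
          simp [h8]
        rw [h4] at h7
        rw [← h7, List.count_append, List.count_append]
        omega
      apply gen_step (a := a) (w' := [b]) (p := [a]) (q := [a]) h
      · simp [psi, hba]
      · exact ih (der L a) (der_bs h ha hs) (der_LSu h hL) (der_LSx h hx hs) b w' hw' (by omega)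
          (h2.trans h6)

theorem gen_all : ∀ (N : ℕ) (L : Set (List A)), Bs L → LSu L → LSx L → ∀ w ∈ L, w.length ≤ N →
    Gen L w := by
  intro N
  induction N with
  | zero =>
    intro L h _ hx w _ h1
    have : w = [] := List.length_eq_zero_iff.1 (by omega)
    subst this
    exact gen_nil h hx
  | succ N ih =>
    intro L h hL hx w hw h1
    match w, hw, h1 with
    | [], _, _ => exact gen_nil h hx
    | [b], hw, _ =>
      obtain ⟨t, ht⟩ := h.conn _ hw _ hw
      exact gen_single _ L h hL hx b _ ht le_rfl (by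
        rw [List.count_append, List.count_append]
        simp)
    | x :: z :: w, hw, h1 =>
      rcases List.eq_nil_or_concat (z :: w) with h3 | ⟨m, y, h3⟩
      · simp at h3
      · rw [List.concat_eq_append] at h3
        obtain ⟨a, ha, hs⟩ := exists_sep h hL
        obtain ⟨w', hw', p, q, h4, h5⟩ := shrink h hs hw (x := x) (m := m) (y := y) (by rw [h3])
        exact gen_step h h4 (ih _ (der_bs h ha hs) (der_LSu h hL) (der_LSx h hx hs) w' hw'
          (by omega))

/-- the states -/
abbrev T := A × A × A

/-- transitions -/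
def tau (c : A) : Equiv.Perm T where
  toFun s := (s.1 + c, s.2.1 + s.1, s.2.2 + s.2.1)
  invFun s := (s.1 - c, s.2.1 - (s.1 - c), s.2.2 - (s.2.1 - (s.1 - c)))
  left_inv := by rintro ⟨x, y, z⟩; simp
  right_inv := by rintro ⟨x, y, z⟩; simp

/-- stabilizer of a set of states -/
def stab (Z : Set T) : Subgroup (Equiv.Perm T) where
  carrier := {σ | ∀ s, σ s ∈ Z ↔ s ∈ Z}
  mul_mem' := by
    intro σ ρ hσ hρ s
    rw [Equiv.Perm.mul_apply]
    exact (hσ _).trans (hρ _)
  one_mem' := by intro s; rfl
  inv_mem' := by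
    intro σ hσ s
    have := hσ (σ.symm s)
    rw [Equiv.apply_symm_apply] at this
    exact this.symm

theorem full_of_stab {Z : Set T} (hne : Z.Nonempty) (h : ∀ c, tau c ∈ stab Z) : Z = Set.univ := by
  have h0 : ∀ x y z : A, (x, y, z) ∈ Z ↔ (x, y + x, z + y + x) ∈ Z := by
    intro x y z
    rw [← (h 0) (x, y + x, z + y + x)]
    have : tau 0 (x, y + x, z + y + x) = (x, y, z) := by revert x y z; decide
    rw [this]
  have h1 : ∀ x y z : A, (x + 1, y, z) ∈ Z ↔ (x, y + x, z + y + x) ∈ Z := by
    intro x y z
    rw [← (h 1) (x, y + x, z + y + x)]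
    have : tau 1 (x, y + x, z + y + x) = (x + 1, y, z) := by revert x y z; decide
    rw [this]
  have fx : ∀ x y z : A, (x + 1, y, z) ∈ Z ↔ (x, y, z) ∈ Z := by
    intro x y z
    exact (h1 x y z).trans (h0 x y z).symm
  have fy : ∀ x y z : A, (x, y + 1, z) ∈ Z ↔ (x, y, z) ∈ Z := by
    intro x y z
    rw [h0 x y z, ← fx x (y + x), ← fx x (y + 1), h0 (x + 1) (y + 1) z]
    have e1 : y + 1 + (x + 1) = y + x := by revert x y z; decide
    have e2 : z + (y + 1) + (x + 1) = z + y + x := by revert x y z; decide
    rw [e1, e2]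
  have fz : ∀ x y z : A, (x, y, z + 1) ∈ Z ↔ (x, y, z) ∈ Z := by
    intro x y z
    rw [h0 x y z, ← fy x (y + x), ← fy x y, h0 x (y + 1) (z + 1)]
    have e1 : y + 1 + x = y + x + 1 := by revert x y z; decide
    have e2 : z + 1 + (y + 1) + x = z + y + x := by revert x y z; decide
    rw [e1, e2]
  obtain ⟨⟨x0, y0, z0⟩, hs⟩ := hne
  ext ⟨x, y, z⟩
  refine ⟨fun _ => trivial, fun _ => ?_⟩
  have cs : ∀ x x' : A, x = x' ∨ x = x' + 1 := by decide
  have e1 : (x, y0, z0) ∈ Z := by
    rcases cs x x0 with h2 | h2 <;> rw [h2]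
    · exact hs
    · exact (fx _ _ _).2 hs
  have e2 : (x, y, z0) ∈ Z := by
    rcases cs y y0 with h2 | h2 <;> rw [h2]
    · exact e1
    · exact (fy _ _ _).2 e1
  rcases cs z z0 with h2 | h2 <;> rw [h2]
  · exact e2
  · exact (fz _ _ _).2 e2

/-- every factor occurs in every state -/
theorem trans {u : ℕ → A} (hu : Sturmian u) (st : ℕ → T)
    (hst : ∀ i, st (i + 1) = tau (u i) (st i)) {w : List A} (hw : w ∈ factors u) (s : T) :
    ∃ i, w = fac u i w.length ∧ st i = s := by
  have hB := sturm_bs hu
  obtain ⟨Z, hZ⟩ : ∃ Z : List A → Set T, Z = fun w => {s | ∃ i, w = fac u i w.length ∧ st i = s} :=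
    ⟨_, rfl⟩
  have hfin : ∀ w, (Z w).Finite := fun w => Set.toFinite _
  obtain ⟨w0, hw0, hmin⟩ : ∃ w0 ∈ factors u, ∀ w ∈ factors u, (Z w0).ncard ≤ (Z w).ncard := by
    have hex : ∃ n, ∃ w ∈ factors u, (Z w).ncard = n := ⟨_, w, hw, rfl⟩
    obtain ⟨w0, h1, h2⟩ := Nat.find_spec hex
    exact ⟨w0, h1, fun w hw => by rw [h2]; exact Nat.find_min' hex ⟨w, hw, rfl⟩⟩
  have hact : ∀ n i, ((fac u i n).map (fun c => (tau c)⁻¹)).prod (st (i + n)) = st i := by
    intro n
    induction n with
    | zero => intro i; simp
    | succ n ih =>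
      intro i
      rw [fac_succ, List.map_cons, List.prod_cons, Equiv.Perm.mul_apply,
        show i + (n + 1) = i + 1 + n by ring, ih (i + 1), hst]
      simp
  have hne : (Z w0).Nonempty := by
    obtain ⟨i, n, h⟩ := hw0
    have h1 : w0.length = n := by rw [h]; simp
    rw [hZ]
    exact ⟨st i, i, by rw [h1]; exact h, rfl⟩
  have hstab : ∀ c, (tau c)⁻¹ ∈ stab (Z w0) := by
    apply gen_all w0.length (factors u) hB (LSu_of hB hu) ?_ w0 hw0 le_rfl
    · intro r hr1 hr2
      have hsub : Z (r ++ w0) ⊆ Z w0 := by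
        rw [hZ]
        rintro s ⟨i, h1, h2⟩
        refine ⟨i, ?_, h2⟩
        obtain ⟨t, ht⟩ := hr2
        rw [← ht] at h1
        exact (fac_decomp h1.symm).1
      have heq : Z (r ++ w0) = Z w0 := Set.eq_of_subset_of_ncard_le hsub (hmin _ hr1) (hfin _)
      obtain ⟨Φ, hΦ⟩ : ∃ Φ : Equiv.Perm T, Φ = (r.map (fun c => (tau c)⁻¹)).prod := ⟨_, rfl⟩
      rw [← hΦ]
      have h1 : Φ.symm '' (Z w0) ⊆ Z w0 := by
        rintro _ ⟨s, hs, rfl⟩
        rw [← heq, hZ] at hs
        obtain ⟨i, h2, h3⟩ := hs
        obtain ⟨h4, h5⟩ := fac_decomp h2.symm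
        have h6 := hact r.length i
        rw [← h4, ← hΦ] at h6
        rw [hZ]
        refine ⟨i + r.length, h5, ?_⟩
        rw [← h3, ← h6]
        simp
      have h2 : Φ.symm '' (Z w0) = Z w0 := by
        apply Set.eq_of_subset_of_ncard_le h1 _ (hfin _)
        rw [Set.ncard_image_of_injective _ (Equiv.injective _)]
      intro s
      constructor
      · intro h3
        have h4 : Φ.symm (Φ s) ∈ Φ.symm '' (Z w0) := ⟨_, h3, rfl⟩
        rw [h2] at h4
        simpa using h4
      · intro h3
        rw [← h2] at h3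
        obtain ⟨s', h4, h5⟩ := h3
        rw [← h5]
        simpa using h4
    · intro n
      have := RS_exists hB.rev (fun n => by rw [lv_rev]; exact hu n) n
      obtain ⟨z, hz, h1, h2⟩ := this
      refine ⟨z.reverse, by simpa using hz, ?_, ?_⟩
      · change (z ++ [0]).reverse ∈ factors u at h1
        simpa using h1
      · change (z ++ [1]).reverse ∈ factors u at h2
        simpa using h2
  have hfull : Z w0 = Set.univ := by
    apply full_of_stab hne
    intro c
    have := (stab (Z w0)).inv_mem (hstab c)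
    simpa using this
  have hw' : Z w = Set.univ := by
    apply Set.eq_of_subset_of_ncard_le (Set.subset_univ _) _ Set.finite_univ
    rw [← hfull]
    exact hmin w hw
  have : s ∈ Z w := by rw [hw']; trivial
  rw [hZ] at this
  exact this

end partD

section partE

/-- The operation `S`: `S(x)_i = x_i + x_{i+1} mod 2` (words indexed from `0`). -/
def S (x : ℕ → A) : ℕ → A := fun i => x i + x (i + 1)

/-- The exchange antimorphism `E`. -/
def E (w : List A) : List A := (w.map (fun c => c + 1)).reverse

/-- The number of palindromic factors of length `n`. -/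
noncomputable def P (x : ℕ → A) (n : ℕ) : ℕ :=
  {w : List A | w ∈ factors x ∧ w.length = n ∧ w.reverse = w}.ncard

/-- The number of `E`-palindromic factors of length `n`. -/
noncomputable def PE (x : ℕ → A) (n : ℕ) : ℕ :=
  {w : List A | w ∈ factors x ∧ w.length = n ∧ E w = w}.ncard

/-- `H`-rich words. -/
def HRich (x : ℕ → A) : Prop :=
  (∀ w ∈ factors x, w.reverse ∈ factors x) ∧ (∀ w ∈ factors x, E w ∈ factors x) ∧
  ∀ n, 1 ≤ n → ((C x (n + 1) : ℤ) - C x n) + 4 = P x (n + 1) + P x n + PE x (n + 1) + PE x n

/-- integration of a block -/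
def integ : A → List A → List A
  | c, [] => [c]
  | c, d :: w => c :: integ (c + d) w

@[simp] theorem integ_length : ∀ (w : List A) (c : A), (integ c w).length = w.length + 1 := by
  intro w
  induction w with
  | nil => intro c; rfl
  | cons d w ih => intro c; simp [integ, ih]

theorem fac_integ {x y : ℕ → A} (h : S y = x) : ∀ (n i : ℕ),
    fac y i (n + 1) = integ (y i) (fac x i n) := by
  intro n
  induction n with
  | zero => intro i; simp [fac_one, integ]
  | succ n ih =>
    intro i
    rw [fac_succ, ih (i + 1), fac_succ x, integ]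
    have : y i + x i = y (i + 1) := by
      rw [← h, S, ← add_assoc, add_self, zero_add]
    rw [this]

theorem integ_inj : ∀ (w w' : List A) (c c' : A), integ c w = integ c' w' → c = c' ∧ w = w' := by
  intro w
  induction w with
  | nil =>
    intro w' c c' h
    cases w' with
    | nil => exact ⟨by simpa [integ] using h, rfl⟩
    | cons d w' =>
      exfalso
      have := congrArg List.length h
      simp at this
  | cons d w ih =>
    intro w' c c' h
    cases w' with
    | nil =>
      exfalso
      have := congrArg List.length h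
      simp at this
    | cons d' w' =>
      rw [integ, integ] at h
      obtain ⟨h1, h2⟩ := List.cons_eq_cons.1 h
      obtain ⟨h3, h4⟩ := ih _ _ _ h2
      subst h1
      exact ⟨rfl, by rw [add_left_cancel h3, h4]⟩

theorem integ_append : ∀ (w : List A) (c d : A), integ c (w ++ [d]) = integ c w ++ [c + w.sum + d] := by
  intro w
  induction w with
  | nil => intro c d; simp [integ]
  | cons e w ih =>
    intro c d
    rw [List.cons_append, integ, ih, integ, List.cons_append, List.sum_cons]
    simp [add_assoc]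

theorem integ_reverse (w : List A) : ∀ (c : A), (integ c w).reverse = integ (c + w.sum) w.reverse := by
  induction w using List.reverseRecOn with
  | nil => intro c; simp [integ]
  | append_singleton w d ih =>
    intro c
    rw [integ_append, List.reverse_append, ih, List.reverse_append]
    simp only [List.reverse_cons, List.reverse_nil, List.nil_append, List.cons_append,
      List.sum_append, List.sum_singleton, integ]
    have : c + (w.sum + d) + d = c + w.sum := by
      rw [add_assoc, add_assoc, add_self, add_zero]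
    rw [this, ← add_assoc]

theorem integ_bar : ∀ (w : List A) (c : A), (integ c w).map (fun c => c + 1) = integ (c + 1) w := by
  intro w
  induction w with
  | nil => intro c; rfl
  | cons d w ih =>
    intro c
    rw [integ, integ, List.map_cons, ih]
    congr 2
    ring

theorem sum_bar (w : List A) : (w.map (fun c => c + 1)).sum = w.sum + (w.length : A) := by
  induction w with
  | nil => simp
  | cons c w ih =>
    rw [List.map_cons, List.sum_cons, ih, List.sum_cons, List.length_cons]
    push_cast
    ring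

/-- closed under exchange of letters -/
def CS (y : ℕ → A) : Prop := ∀ w ∈ factors y, w.map (fun c => c + 1) ∈ factors y

theorem bin2 (c d : A) : c = d ∨ c = d + 1 := by
  revert c d; decide

theorem mem_integ {x y : ℕ → A} (h : S y = x) (hc : CS y) (c : A) (w : List A) :
    integ c w ∈ factors y ↔ w ∈ factors x := by
  constructor
  · rintro ⟨i, n, h1⟩
    have h2 : n = w.length + 1 := by
      have := congrArg List.length h1
      simpa using this.symm
    rw [h2, fac_integ h] at h1
    rw [(integ_inj _ _ _ _ h1).2]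
    exact fac_mem _ _ _
  · rintro ⟨i, n, h1⟩
    have h2 : integ (y i) w ∈ factors y := by
      rw [h1, ← fac_integ h]; exact fac_mem _ _ _
    rcases bin2 c (y i) with h3 | h3
    · rw [h3]; exact h2
    · rw [h3, ← integ_bar]; exact hc _ h2

theorem ex_integ {x y : ℕ → A} (h : S y = x) {w : List A} {n : ℕ} (hw : w ∈ factors y)
    (hn : w.length = n + 1) : ∃ c v, v ∈ factors x ∧ v.length = n ∧ w = integ c v := by
  obtain ⟨i, m, h1⟩ := hw
  have h2 : m = n + 1 := by rw [← hn, h1]; simp
  rw [h2, fac_integ h] at h1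
  exact ⟨_, _, fac_mem x i n, by simp, h1⟩

theorem card_integ {K : Set (List A)} (hK : K.Finite) :
    {z | ∃ c, ∃ w ∈ K, z = integ c w}.ncard = 2 * K.ncard := by
  have h1 : {z | ∃ c, ∃ w ∈ K, z = integ c w} = integ 0 '' K ∪ integ 1 '' K := by
    ext z
    constructor
    · rintro ⟨c, w, hw, rfl⟩
      rcases bin c with hc | hc <;> rw [hc]
      · exact Or.inl ⟨w, hw, rfl⟩
      · exact Or.inr ⟨w, hw, rfl⟩
    · rintro (⟨w, hw, rfl⟩ | ⟨w, hw, rfl⟩)
      · exact ⟨_, w, hw, rfl⟩
      · exact ⟨_, w, hw, rfl⟩
  have hinj : ∀ c, Function.Injective (integ c) := fun c w w' h => (integ_inj _ _ _ _ h).2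
  rw [h1, Set.ncard_union_eq _ (hK.image _) (hK.image _), Set.ncard_image_of_injective _ (hinj 0),
    Set.ncard_image_of_injective _ (hinj 1), two_mul]
  rw [Set.disjoint_left]
  rintro _ ⟨w, _, rfl⟩ ⟨w', _, h⟩
  have := (integ_inj _ _ _ _ h).1
  revert this
  decide

theorem C_step {x y : ℕ → A} (h : S y = x) (hc : CS y) (n : ℕ) : C y (n + 1) = 2 * C x n := by
  rw [C, C, ← card_integ (lv_finite _ _)]
  congr 1
  ext w
  constructor
  · rintro ⟨h1, h2⟩
    obtain ⟨c, v, h3, h4, h5⟩ := ex_integ h h1 h2
    exact ⟨c, v, ⟨h3, h4⟩, h5⟩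
  · rintro ⟨c, v, ⟨h3, h4⟩, rfl⟩
    exact ⟨(mem_integ h hc c v).2 h3, by simp [h4]⟩

theorem pal_integ (c : A) (w : List A) : (integ c w).reverse = integ c w ↔
    w.reverse = w ∧ w.sum = 0 := by
  rw [integ_reverse]
  constructor
  · intro h
    obtain ⟨h1, h2⟩ := integ_inj _ _ _ _ h
    exact ⟨h2, by simpa using h1⟩
  · rintro ⟨h1, h2⟩
    rw [h1, h2, add_zero]

theorem epal_integ (c : A) (w : List A) : E (integ c w) = integ c w ↔
    w.reverse = w ∧ w.sum = 1 := by
  rw [E, integ_bar, integ_reverse]
  have key : ∀ c s : A, c + 1 + s = c ↔ s = 1 := by decide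
  constructor
  · intro h
    obtain ⟨h1, h2⟩ := integ_inj _ _ _ _ h
    exact ⟨h2, (key _ _).1 h1⟩
  · rintro ⟨h1, h2⟩
    rw [h1, (key _ _).2 h2]

theorem P_step {x y : ℕ → A} (h : S y = x) (hc : CS y) (n : ℕ) :
    P y (n + 1) = 2 * (pals (factors x) n 0).ncard := by
  rw [P, ← card_integ (pals_finite _ _ _)]
  congr 1
  ext w
  constructor
  · rintro ⟨h1, h2, h3⟩
    obtain ⟨c, v, h4, h5, h6⟩ := ex_integ h h1 h2
    rw [h6, pal_integ] at h3
    exact ⟨c, v, ⟨h4, h5, h3.1, h3.2⟩, h6⟩
  · rintro ⟨c, v, ⟨h3, h4, h5, h6⟩, rfl⟩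
    exact ⟨(mem_integ h hc c v).2 h3, by simp [h4], (pal_integ c v).2 ⟨h5, h6⟩⟩

theorem PE_step {x y : ℕ → A} (h : S y = x) (hc : CS y) (n : ℕ) :
    PE y (n + 1) = 2 * (pals (factors x) n 1).ncard := by
  rw [PE, ← card_integ (pals_finite _ _ _)]
  congr 1
  ext w
  constructor
  · rintro ⟨h1, h2, h3⟩
    obtain ⟨c, v, h4, h5, h6⟩ := ex_integ h h1 h2
    rw [h6, epal_integ] at h3
    exact ⟨c, v, ⟨h4, h5, h3.1, h3.2⟩, h6⟩
  · rintro ⟨c, v, ⟨h3, h4, h5, h6⟩, rfl⟩
    exact ⟨(mem_integ h hc c v).2 h3, by simp [h4], (epal_integ c v).2 ⟨h5, h6⟩⟩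

theorem P_split (x : ℕ → A) (n : ℕ) :
    P x n = (pals (factors x) n 0).ncard + (pals (factors x) n 1).ncard := by
  rw [P, ← Set.ncard_union_eq _ (pals_finite _ _ _) (pals_finite _ _ _)]
  · congr 1
    ext w
    constructor
    · rintro ⟨h1, h2, h3⟩
      rcases bin w.sum with h4 | h4
      · exact Or.inl ⟨h1, h2, h3, h4⟩
      · exact Or.inr ⟨h1, h2, h3, h4⟩
    · rintro (⟨h1, h2, h3, _⟩ | ⟨h1, h2, h3, _⟩)
      · exact ⟨h1, h2, h3⟩
      · exact ⟨h1, h2, h3⟩
  · rw [Set.disjoint_left]
    rintro w ⟨_, _, _, h1⟩ ⟨_, _, _, h2⟩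
    rw [h1] at h2
    revert h2
    decide

theorem rev_step {x y : ℕ → A} (h : S y = x) (hc : CS y)
    (hr : ∀ w ∈ factors x, w.reverse ∈ factors x) : ∀ w ∈ factors y, w.reverse ∈ factors y := by
  intro w hw
  rcases Nat.eq_zero_or_pos w.length with h0 | h0
  · have : w = [] := List.length_eq_zero_iff.1 h0
    subst this
    exact hw
  · obtain ⟨c, v, h1, h2, h3⟩ := ex_integ h hw (n := w.length - 1) (by omega)
    rw [h3, integ_reverse, mem_integ h hc]
    exact hr v h1

/-- the equality characterizing richness -/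
def Req (x : ℕ → A) : Prop := ∀ m, C x (m + 1) + 2 = C x m + P x (m + 1) + P x m

theorem hrich_of {x y : ℕ → A} (h : S y = x) (hc : CS y)
    (hr : ∀ w ∈ factors x, w.reverse ∈ factors x) (hq : Req x) : HRich y := by
  refine ⟨rev_step h hc hr, fun w hw => rev_step h hc hr _ (hc w hw), ?_⟩
  intro n hn
  obtain ⟨m, rfl⟩ := Nat.exists_eq_add_of_le' hn
  have h1 := hq m
  rw [P_split, P_split] at h1
  rw [C_step h hc, C_step h hc, P_step h hc, P_step h hc, PE_step h hc, PE_step h hc]
  push_cast
  zify at h1
  linarith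

theorem P_zero (x : ℕ → A) : P x 0 = 1 := by
  have : {w : List A | w ∈ factors x ∧ w.length = 0 ∧ w.reverse = w} = {[]} := by
    ext w
    constructor
    · rintro ⟨_, h1, _⟩
      exact List.length_eq_zero_iff.1 h1
    · rintro rfl
      exact ⟨⟨0, 0, rfl⟩, rfl, rfl⟩
  rw [P, this]; simp

theorem pals_zero_zero (x : ℕ → A) : (pals (factors x) 0 0).ncard = 1 := by
  have : pals (factors x) 0 0 = {[]} := by
    ext w
    constructor
    · rintro ⟨_, h1, _⟩
      exact List.length_eq_zero_iff.1 h1
    · rintro rfl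
      exact ⟨⟨0, 0, rfl⟩, rfl, rfl, rfl⟩
  rw [this]; simp

theorem Req1 {u x : ℕ → A} (hu : Sturmian u) (h : S x = u) (hc : CS x) : Req x := by
  have hp := pals_zero (sturm_bs hu) hu (sturm_rev hu)
  intro m
  cases m with
  | zero =>
    rw [C_step h hc, P_step h hc, hp, P_zero, C_zero, C_zero]
  | succ m =>
    rw [C_step h hc, C_step h hc, P_step h hc, P_step h hc, hp, hp, hu, hu]
    ring

theorem pal_sum_even : ∀ (n : ℕ) (w : List A), w.length = 2 * n → w.reverse = w → w.sum = 0 := by
  intro n
  induction n with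
  | zero =>
    intro w hw _
    have : w = [] := List.length_eq_zero_iff.1 (by omega)
    subst this
    rfl
  | succ n ih =>
    intro w hw hr
    obtain ⟨x, Q, h1, h2, h3⟩ := pal_decomp (n := 2 * n) hr (by omega)
    rw [h1, sum_ext]
    exact ih Q h3 h2

/-- even palindromes of a first preimage: the odd-length case -/
theorem p_even {u x : ℕ → A} (hu : Sturmian u) (h : S x = u) (hc : CS x) {n : ℕ} (hn : n % 2 = 0) :
    (pals (factors x) (n + 1) 0).ncard = 1 := by
  have hp := pals_zero (sturm_bs hu) hu (sturm_rev hu) n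
  obtain ⟨v, hv⟩ := Set.ncard_eq_one.1 hp
  have hvm : v ∈ pals (factors u) n 0 := by rw [hv]; rfl
  have hsum : ∀ c, (integ (c + 1) v).sum = (integ c v).sum + 1 := by
    intro c
    rw [← integ_bar, sum_bar, integ_length, hvm.2.1]
    have : ((n + 1 : ℕ) : A) = 1 := by
      rw [show ((n + 1 : ℕ) : A) = ((1 : ℕ) : A) from (ZMod.natCast_eq_natCast_iff' _ _ _).2
        (by omega)]
      rfl
    rw [this]
  have hone : ∀ c, (integ c v).sum = 0 ↔ c = (integ 0 v).sum := by
    intro c
    rcases bin c with h1 | h1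
    · rw [h1]; exact eq_comm
    · have h2 := hsum 0
      rw [zero_add] at h2
      rw [h1, h2]
      generalize (integ 0 v).sum = s
      revert s
      decide
  have : pals (factors x) (n + 1) 0 = {integ ((integ 0 v).sum) v} := by
    ext w
    constructor
    · rintro ⟨h1, h2, h3, h4⟩
      obtain ⟨c, v', h5, h6, h7⟩ := ex_integ h h1 h2
      rw [h7, pal_integ] at h3
      have h8 : v' ∈ pals (factors u) n 0 := ⟨h5, h6, h3.1, h3.2⟩
      rw [hv] at h8
      have h9 : v' = v := h8
      subst h9
      rw [h7, hone] at h4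
      rw [h7, h4]
      have h10 : (integ ((integ 0 v').sum) v').sum = 0 := (hone _).2 rfl
      rw [(hone _).1 h10]
      rfl
    · rintro rfl
      refine ⟨(mem_integ h hc _ _).2 hvm.1, by simp [hvm.2.1], (pal_integ _ _).2
        ⟨hvm.2.2.1, hvm.2.2.2⟩, (hone _).2 rfl⟩
  rw [this]; simp

theorem p_odd {u x : ℕ → A} (hu : Sturmian u) (h : S x = u) (hc : CS x) {n : ℕ} (hn : n % 2 = 1) :
    (pals (factors x) (n + 1) 0).ncard = 2 := by
  have hp := pals_zero (sturm_bs hu) hu (sturm_rev hu) n
  have e2 : 2 * (pals (factors u) n 0).ncard = 2 := by rw [hp]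
  refine Eq.trans ?_ e2
  rw [← card_integ (pals_finite _ _ _)]
  congr 1
  ext w
  constructor
  · rintro ⟨h1, h2, h3, h4⟩
    obtain ⟨c, v', h5, h6, h7⟩ := ex_integ h h1 h2
    rw [h7, pal_integ] at h3
    exact ⟨c, v', ⟨h5, h6, h3.1, h3.2⟩, h7⟩
  · rintro ⟨c, v, ⟨h5, h6, h7, h8⟩, rfl⟩
    have h9 : (integ c v).reverse = integ c v := (pal_integ c v).2 ⟨h7, h8⟩
    refine ⟨(mem_integ h hc _ _).2 h5, by simp [h6], h9, ?_⟩
    exact pal_sum_even ((n + 1) / 2) _ (by rw [integ_length, h6]; omega) h9

theorem Req2 {u x y : ℕ → A} (hu : Sturmian u) (h : S x = u) (hc : CS x) (h' : S y = x)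
    (hc' : CS y) : Req y := by
  intro m
  match m with
  | 0 =>
    rw [C_step h' hc', P_step h' hc', pals_zero_zero, P_zero, C_zero, C_zero]
  | 1 =>
    rw [C_step h' hc', C_step h' hc', P_step h' hc', P_step h' hc', pals_zero_zero,
      p_even hu h hc (n := 0) rfl, C_step h hc, C_zero, C_zero]
  | m + 2 =>
    rw [C_step h' hc', C_step h' hc', P_step h' hc', P_step h' hc', C_step h hc, C_step h hc, hu,
      hu]
    rcases Nat.mod_two_eq_zero_or_one m with h1 | h1
    · rw [p_even hu h hc h1, p_odd hu h hc (n := m + 1) (by omega)]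
      ring
    · rw [p_odd hu h hc h1, p_even hu h hc (n := m + 1) (by omega)]
      ring

/-- closure under exchange of letters for the three preimages -/
theorem CS_all {u x3 : ℕ → A} (hu : Sturmian u) (h : S (S (S x3)) = u) :
    CS (S (S x3)) ∧ CS (S x3) ∧ CS x3 := by
  obtain ⟨x2, h2⟩ : ∃ x2, x2 = S x3 := ⟨_, rfl⟩
  obtain ⟨x1, h1⟩ : ∃ x1, x1 = S x2 := ⟨_, rfl⟩
  rw [← h2, ← h1] at h ⊢
  obtain ⟨st, hst⟩ : ∃ st : ℕ → T, st = fun i => (x1 i, x2 i, x3 i) := ⟨_, rfl⟩
  have hs : ∀ i, st (i + 1) = tau (u i) (st i) := by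
    intro i
    have e : ∀ a b : A, a + (a + b) = b := by decide
    have e1 : x1 i + u i = x1 (i + 1) := by
      rw [← h, S]; exact e _ _
    have e2 : x2 i + x1 i = x2 (i + 1) := by
      rw [h1, S]; exact e _ _
    have e3 : x3 i + x2 i = x3 (i + 1) := by
      rw [h2, S]; exact e _ _
    rw [hst]
    change (x1 (i + 1), x2 (i + 1), x3 (i + 1)) = (x1 i + u i, x2 i + x1 i, x3 i + x2 i)
    rw [e1, e2, e3]
  have key : ∀ (i n : ℕ) (s : T), ∃ j, fac u j n = fac u i n ∧ (x1 j, x2 j, x3 j) = s := by
    intro i n s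
    obtain ⟨j, hj1, hj2⟩ := trans hu st hs (fac_mem u i n) s
    rw [fac_length] at hj1
    rw [hst] at hj2
    exact ⟨j, hj1.symm, hj2⟩
  have pre : ∀ (y : ℕ → A) (i j n k : ℕ), fac y j (n + k) = (fac y i (n + k)).map (fun c => c + 1) →
      fac y j n = (fac y i n).map (fun c => c + 1) := by
    intro y i j n k he
    rw [fac_add, fac_add, List.map_append] at he
    exact List.append_inj_left he (by simp)
  refine ⟨?_, ?_, ?_⟩
  · rintro w ⟨i, n, rfl⟩
    obtain ⟨j, hj, hj2⟩ := key i n (x1 i + 1, 0, 0)
    simp only [Prod.mk.injEq] at hj2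
    rw [← pre x1 i j n 1 (by rw [fac_integ h, fac_integ h, hj, hj2.1, integ_bar])]
    exact fac_mem _ _ _
  · rintro w ⟨i, n, rfl⟩
    obtain ⟨j, hj, hj2⟩ := key i n (x1 i, x2 i + 1, 0)
    simp only [Prod.mk.injEq] at hj2
    rw [← pre x2 i j n 2 (by
      rw [fac_integ h1.symm, fac_integ h1.symm, fac_integ h, fac_integ h, hj, hj2.1, hj2.2.1,
        integ_bar])]
    exact fac_mem _ _ _
  · rintro w ⟨i, n, rfl⟩
    obtain ⟨j, hj, hj2⟩ := key i n (x1 i, x2 i, x3 i + 1)
    simp only [Prod.mk.injEq] at hj2
    rw [← pre x3 i j n 3 (by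
      rw [fac_integ h2.symm, fac_integ h2.symm, fac_integ h1.symm, fac_integ h1.symm,
        fac_integ h, fac_integ h, hj, hj2.1, hj2.2.1, hj2.2.2, integ_bar])]
    exact fac_mem _ _ _

end partE

section partF

/-- a numbering of the words -/
noncomputable def enc : List A → ℕ := (exists_injective_nat (List A)).choose

theorem enc_inj : Function.Injective enc := (exists_injective_nat (List A)).choose_spec

/-- canonical representative of the class of `w` and its reversal -/
noncomputable def can (w : List A) : List A := if enc w ≤ enc w.reverse then w else w.reverse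

theorem can_or (w : List A) : can w = w ∨ can w = w.reverse := by
  unfold can
  split_ifs
  · exact Or.inl rfl
  · exact Or.inr rfl

theorem can_rev (w : List A) : can w.reverse = can w := by
  unfold can
  rw [List.reverse_reverse]
  by_cases h1 : enc w ≤ enc w.reverse <;> by_cases h2 : enc w.reverse ≤ enc w
  · rw [if_pos h1, if_pos h2]
    exact (enc_inj (le_antisymm h1 h2)).symm
  · rw [if_pos h1, if_neg h2]
  · rw [if_neg h1, if_pos h2]
  · omega

theorem can_eq {w w' : List A} : can w = can w' ↔ w = w' ∨ w = w'.reverse := by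
  constructor
  · intro h
    rcases can_or w with h1 | h1 <;> rcases can_or w' with h2 | h2
    · left; rw [← h1, h, h2]
    · right; rw [← h1, h, h2]
    · right; rw [← h2, ← h, h1, List.reverse_reverse]
    · left; rw [← List.reverse_injective.eq_iff, ← h1, ← h2, h]
  · rintro (h | h)
    · rw [h]
    · rw [h, can_rev]

/-- walks on trees -/
theorem walk_tree {V W : Type} [Finite V] (v : ℕ → V) (hsurj : Function.Surjective v) (e : ℕ → W)
    (he : ∀ i j, e i = e j → s(v i, v (i + 1)) = s(v j, v (j + 1))) (K : Set W) (hKf : K.Finite)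
    (hK1 : ∀ i, v i ≠ v (i + 1) → e i ∈ K) (hcard : K.ncard + 1 = Nat.card V) :
    (∀ i, e i ∈ K → v i ≠ v (i + 1)) ∧
    (∀ i j, i + 2 ≤ j → v i = v j → (∀ k, i < k → k < j → v k ≠ v i) → e i = e (j - 1)) := by
  obtain ⟨F, hF⟩ : ∃ F : W → Sym2 V, ∀ i, F (e i) = s(v i, v (i + 1)) := by
    refine ⟨fun w => if h : ∃ i, e i = w then s(v h.choose, v (h.choose + 1)) else s(v 0, v 0), ?_⟩
    intro i
    have h : ∃ j, e j = e i := ⟨i, rfl⟩
    beta_reduce
    rw [dif_pos h]
    exact he _ _ h.choose_spec
  obtain ⟨G, hG⟩ : ∃ G : SimpleGraph V, ∀ a b, G.Adj a b ↔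
      (∃ i, s(v i, v (i + 1)) = s(a, b)) ∧ a ≠ b :=
    ⟨SimpleGraph.fromEdgeSet (Set.range (fun i => s(v i, v (i + 1)))), fun a b => by
      rw [SimpleGraph.fromEdgeSet_adj]; rfl⟩
  have hreach : ∀ i, G.Reachable (v 0) (v i) := by
    intro i
    induction i with
    | zero => exact SimpleGraph.Reachable.refl _
    | succ i ih =>
      by_cases h : v i = v (i + 1)
      · rw [← h]; exact ih
      · exact ih.trans ((hG _ _).2 ⟨⟨i, rfl⟩, h⟩).reachable
  have hconn : G.Connected := by
    have : Nonempty V := ⟨v 0⟩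
    refine SimpleGraph.Connected.mk ?_
    intro a b
    obtain ⟨i, rfl⟩ := hsurj a
    obtain ⟨j, rfl⟩ := hsurj b
    exact (hreach i).symm.trans (hreach j)
  have hsub : G.edgeSet ⊆ F '' K := by
    intro x
    induction x using Sym2.ind with
    | _ a b =>
      intro hx
      obtain ⟨⟨i, h1⟩, h2⟩ := (hG a b).1 hx
      refine ⟨e i, hK1 i ?_, by rw [hF, h1]⟩
      intro h3
      rw [← h3, Sym2.eq_iff] at h1
      rcases h1 with ⟨h4, h5⟩ | ⟨h4, h5⟩
      · exact h2 (h4.symm.trans h5)
      · exact h2 (h5.symm.trans h4)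
  have hc1 := hconn.card_vert_le_card_edgeSet_add_one
  rw [Nat.card_coe_set_eq] at hc1
  have hc2 : G.edgeSet.ncard ≤ (F '' K).ncard := Set.ncard_le_ncard hsub (hKf.image _)
  have hc3 : (F '' K).ncard ≤ K.ncard := Set.ncard_image_le hKf
  have hinj : Set.InjOn F K := Set.injOn_of_ncard_image_eq (by omega) hKf
  have heq : G.edgeSet = F '' K := Set.eq_of_subset_of_ncard_le hsub (by omega) (hKf.image _)
  refine ⟨?_, ?_⟩
  · intro i hi
    have h1 : F (e i) ∈ G.edgeSet := by rw [heq]; exact ⟨_, hi, rfl⟩
    rw [hF] at h1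
    exact ((hG _ _).1 h1).2
  · intro i j hij hv hno
    by_contra hne
    have hvi : v i ≠ v (i + 1) := (hno (i + 1) (by omega) (by omega)).symm
    have hvj : v (j - 1) ≠ v (j - 1 + 1) := by
      rw [show j - 1 + 1 = j by omega, ← hv]
      exact hno (j - 1) (by omega) (by omega)
    have hlast : s(v (j - 1), v j) ≠ s(v i, v (i + 1)) := by
      intro h1
      apply hne
      apply hinj (hK1 i hvi) (hK1 (j - 1) hvj)
      rw [hF, hF, show j - 1 + 1 = j by omega, h1]
    have htree : G.IsTree := SimpleGraph.isTree_iff_connected_and_card.2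
      ⟨hconn, by rw [Nat.card_coe_set_eq]; omega⟩
    have hbr := SimpleGraph.isAcyclic_iff_forall_adj_isBridge.1 htree.isAcyclic
      ((hG _ _).2 ⟨⟨i, rfl⟩, hvi⟩)
    rw [SimpleGraph.isBridge_iff] at hbr
    apply hbr
    have hr : ∀ k, i + 1 + k ≤ j →
        (G.deleteEdges {s(v i, v (i + 1))}).Reachable (v (i + 1)) (v (i + 1 + k)) := by
      intro k
      induction k with
      | zero => intro _; exact SimpleGraph.Reachable.refl _
      | succ k ih =>
        intro hk
        have h1 := ih (by omega)
        by_cases h : v (i + 1 + k) = v (i + 1 + k + 1)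
        · rw [← Nat.add_assoc, ← h]; exact h1
        · refine h1.trans (SimpleGraph.Adj.reachable ?_)
          rw [SimpleGraph.deleteEdges_adj]
          refine ⟨(hG _ _).2 ⟨⟨_, rfl⟩, h⟩, ?_⟩
          rw [Set.mem_singleton_iff]
          by_cases hkj : i + 1 + k + 1 = j
          · intro h2
            apply hlast
            rw [show j - 1 = i + 1 + k by omega]
            rw [← h2, ← hkj]
            rfl
          · intro h2
            rw [Sym2.eq_iff] at h2
            rcases h2 with ⟨h3, _⟩ | ⟨_, h3⟩
            · exact hno (i + 1 + k) (by omega) (by omega) h3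
            · exact hno (i + 1 + (k + 1)) (by omega) (by omega) h3
    have h2 := hr (j - (i + 1)) (by omega)
    rw [show i + 1 + (j - (i + 1)) = j by omega, ← hv] at h2
    exact h2.symm

/-- canonical words of length `n` -/
def M (L : Set (List A)) (n : ℕ) : Set (List A) :=
  {w | w ∈ L ∧ w.length = n ∧ enc w ≤ enc w.reverse}

theorem M_finite (L : Set (List A)) (n : ℕ) : (M L n).Finite :=
  (List.finite_length_eq A n).subset fun _ hw => hw.2.1

theorem M_card {L : Set (List A)} (hr : ∀ w ∈ L, w.reverse ∈ L) (n : ℕ) :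
    2 * (M L n).ncard = (lv L n).ncard + {w : List A | w ∈ L ∧ w.length = n ∧ w.reverse = w}.ncard := by
  have h1 : (List.reverse '' M L n).ncard = (M L n).ncard :=
    Set.ncard_image_of_injective _ List.reverse_injective
  rw [two_mul]
  nth_rewrite 2 [← h1]
  rw [← Set.ncard_union_add_ncard_inter _ _ (M_finite _ _) ((M_finite _ _).image _)]
  congr 2
  · ext w
    constructor
    · rintro (⟨h2, h3, _⟩ | ⟨v, ⟨h2, h3, _⟩, rfl⟩)
      · exact ⟨h2, h3⟩
      · exact ⟨hr _ h2, by simpa using h3⟩
    · rintro ⟨h2, h3⟩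
      rcases le_total (enc w) (enc w.reverse) with h4 | h4
      · exact Or.inl ⟨h2, h3, h4⟩
      · exact Or.inr ⟨w.reverse, ⟨hr _ h2, by simpa using h3, by simpa using h4⟩, by simp⟩
  · ext w
    constructor
    · rintro ⟨⟨h2, h3, h4⟩, ⟨v, ⟨_, _, h7⟩, rfl⟩⟩
      rw [List.reverse_reverse] at h4
      refine ⟨h2, h3, ?_⟩
      rw [List.reverse_reverse]
      exact enc_inj (le_antisymm h7 h4)
    · rintro ⟨h2, h3, h4⟩
      exact ⟨⟨h2, h3, by rw [h4]⟩, ⟨w, ⟨h2, h3, by rw [h4]⟩, h4⟩⟩

theorem can_mem_M {L : Set (List A)} (hr : ∀ w ∈ L, w.reverse ∈ L) {w : List A} {n : ℕ}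
    (hw : w ∈ L) (hn : w.length = n) : can w ∈ M L n := by
  unfold can
  split_ifs with h
  · exact ⟨hw, hn, h⟩
  · exact ⟨hr _ hw, by simpa using hn, by rw [List.reverse_reverse]; omega⟩

theorem can_of_M {L : Set (List A)} {w : List A} {n : ℕ} (hw : w ∈ M L n) : can w = w := by
  unfold can
  rw [if_pos hw.2.2]

theorem tree_props {y : ℕ → A} (hr : ∀ w ∈ factors y, w.reverse ∈ factors y) (n : ℕ)
    (hq : C y (n + 1) + 2 = C y n + P y (n + 1) + P y n) :
    (∀ i, can (fac y i n) = can (fac y (i + 1) n) → (fac y i (n + 1)).reverse = fac y i (n + 1)) ∧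
    (∀ i j, i + 2 ≤ j → can (fac y i n) = can (fac y j n) →
      (∀ k, i < k → k < j → can (fac y k n) ≠ can (fac y i n)) →
      can (fac y i (n + 1)) = can (fac y (j - 1) (n + 1))) := by
  obtain ⟨v, hv⟩ : ∃ v : ℕ → {w // w ∈ M (factors y) n}, ∀ i, (v i).1 = can (fac y i n) :=
    ⟨fun i => ⟨can (fac y i n), can_mem_M hr (fac_mem _ _ _) (by simp)⟩, fun i => rfl⟩
  have : Finite {w // w ∈ M (factors y) n} := (M_finite _ _).to_subtype
  have hveq : ∀ i j, v i = v j ↔ can (fac y i n) = can (fac y j n) := by
    intro i j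
    rw [Subtype.ext_iff, hv, hv]
  have hrevcase : ∀ i j, fac y i (n + 1) = (fac y j (n + 1)).reverse →
      fac y i n = (fac y (j + 1) n).reverse ∧ fac y (i + 1) n = (fac y j n).reverse := by
    intro i j h
    constructor
    · rw [fac_succ', fac_succ y j, List.reverse_cons] at h
      exact List.append_inj_left' h rfl
    · rw [fac_succ, fac_succ' y j, List.reverse_append] at h
      exact (List.cons_eq_cons.1 h).2
  have hvrev : ∀ i j, fac y i (n + 1) = (fac y j (n + 1)).reverse →
      v i = v (j + 1) ∧ v (i + 1) = v j := by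
    intro i j h
    obtain ⟨h1, h2⟩ := hrevcase i j h
    exact ⟨(hveq _ _).2 (can_eq.2 (Or.inr h1)), (hveq _ _).2 (can_eq.2 (Or.inr h2))⟩
  obtain ⟨K, hK⟩ : ∃ K : Set (List A), K = {w | w ∈ M (factors y) (n + 1) ∧ w.reverse ≠ w} := ⟨_, rfl⟩
  have hKf : K.Finite := (M_finite (factors y) (n + 1)).subset fun w hw => by
    rw [hK] at hw; exact hw.1
  have hKcard : K.ncard + P y (n + 1) = (M (factors y) (n + 1)).ncard := by
    rw [P, ← Set.ncard_union_eq _ hKf
      ((List.finite_length_eq A (n + 1)).subset fun _ hw => hw.2.1)]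
    · congr 1
      ext w
      rw [hK]
      constructor
      · rintro (⟨h1, _⟩ | ⟨h1, h2, h3⟩)
        · exact h1
        · exact ⟨h1, h2, by rw [h3]⟩
      · intro h1
        by_cases h2 : w.reverse = w
        · exact Or.inr ⟨h1.1, h1.2.1, h2⟩
        · exact Or.inl ⟨h1, h2⟩
    · rw [Set.disjoint_left, hK]
      rintro w ⟨_, h1⟩ ⟨_, _, h2⟩
      exact h1 h2
  have h2M := M_card hr n
  have h2M' := M_card hr (n + 1)
  have hcard : K.ncard + 1 = Nat.card {w // w ∈ M (factors y) n} := by
    have h3 : Nat.card {w // w ∈ M (factors y) n} = (M (factors y) n).ncard :=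
      Nat.card_coe_set_eq _
    rw [h3]
    change 2 * (M (factors y) n).ncard = C y n + P y n at h2M
    change 2 * (M (factors y) (n + 1)).ncard = C y (n + 1) + P y (n + 1) at h2M'
    omega
  obtain ⟨T1, T3⟩ := walk_tree v (by
    rintro ⟨w, hw⟩
    obtain ⟨i, m, h1⟩ := hw.1
    have h2 : m = n := by rw [← hw.2.1, h1]; simp
    refine ⟨i, Subtype.ext ?_⟩
    rw [h2] at h1
    rw [hv, ← h1]
    exact can_of_M hw) (fun i => can (fac y i (n + 1))) (by
    intro i j hij
    rcases can_eq.1 hij with h | h
    · have h1 : fac y i n = fac y j n := by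
        rw [fac_succ', fac_succ' y j] at h
        exact List.append_inj_left' h rfl
      have h2 : fac y (i + 1) n = fac y (j + 1) n := by
        rw [fac_succ, fac_succ y j] at h
        exact (List.cons_eq_cons.1 h).2
      rw [(hveq i j).2 (by rw [h1]), (hveq (i + 1) (j + 1)).2 (by rw [h2])]
    · obtain ⟨h1, h2⟩ := hvrev i j h
      rw [h1, h2]
      exact Sym2.eq_swap) K hKf (by
    intro i hi
    rw [hK]
    refine ⟨can_mem_M hr (fac_mem _ _ _) (by simp), ?_⟩
    intro h
    apply hi
    have h1 : fac y i (n + 1) = (fac y i (n + 1)).reverse := by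
      rcases can_or (fac y i (n + 1)) with h2 | h2
      · rw [h2] at h; exact h.symm
      · rw [h2, List.reverse_reverse] at h; exact h
    exact (hvrev i i h1).1) hcard
  refine ⟨?_, ?_⟩
  · intro i hi
    by_contra hne
    refine T1 i ?_ ((hveq _ _).2 hi)
    rw [hK]
    refine ⟨can_mem_M hr (fac_mem _ _ _) (by simp), ?_⟩
    intro h
    apply hne
    rcases can_or (fac y i (n + 1)) with h2 | h2
    · rw [h2] at h; exact h
    · rw [h2, List.reverse_reverse] at h; exact h.symm
  · intro i j hij h1 h2
    exact T3 i j hij ((hveq _ _).2 h1) (fun k hk hk' h3 => h2 k hk hk' ((hveq _ _).1 h3))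

/-- complete returns to palindromes are palindromes -/
theorem cr {y : ℕ → A} (hr : ∀ w ∈ factors y, w.reverse ∈ factors y) (hq : Req y) (i j n : ℕ)
    (hij : i < j) (hp : (fac y i n).reverse = fac y i n) (hj : fac y j n = fac y i n)
    (hno : ∀ k, i < k → k < j → fac y k n ≠ fac y i n) :
    (fac y i (j - i + n)).reverse = fac y i (j - i + n) := by
  have key : ∀ d, d ≤ j - i → (fac y i (n + d)).reverse = fac y (j - d) (n + d) := by
    intro d
    induction d with
    | zero => intro _; rw [Nat.add_zero, Nat.sub_zero, hp, hj]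
    | succ d ih =>
      intro hd
      have h1 := ih (by omega)
      obtain ⟨T1, T3⟩ := tree_props hr (n + d) (hq (n + d))
      have hvis : ∀ k, i < k → k < j - d → can (fac y k (n + d)) ≠ can (fac y i (n + d)) := by
        intro k hk hk' h2
        rcases can_eq.1 h2 with h3 | h3
        · rw [fac_add, fac_add] at h3
          exact hno k hk (by omega) (List.append_inj_left h3 (by simp))
        · rw [h1, Nat.add_comm n d, fac_add, fac_add, show j - d + d = j by omega] at h3
          have h4 := List.append_inj_right h3 (by simp)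
          rw [hj] at h4
          exact hno (k + d) (by omega) (by omega) h4
      have hcan : can (fac y i (n + d)) = can (fac y (j - d) (n + d)) := by
        rw [← h1, can_rev]
      rw [← Nat.add_assoc]
      by_cases hj' : j - d = i + 1
      · rw [hj'] at hcan
        rw [T1 i hcan, show j - (d + 1) = i by omega]
      · have h2 := T3 i (j - d) (by omega) hcan hvis
        rw [show j - d - 1 = j - (d + 1) by omega] at h2
        rcases can_eq.1 h2 with h3 | h3
        · exfalso
          rw [fac_succ', fac_succ'] at h3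
          have h4 := List.append_inj_left' h3 rfl
          exact hvis (j - (d + 1)) (by omega) (by omega) (by rw [h4])
        · rw [h3, List.reverse_reverse]
  have := key (j - i) le_rfl
  rw [show j - (j - i) = i by omega] at this
  rw [Nat.add_comm]
  exact this

/-- The set of palindromic factors of a finite word (the empty word included). -/
def palFactors (w : List A) : Set (List A) := {p | p <:+: w ∧ p.reverse = p}

/-- `R`-rich words: every factor of length `n` contains exactly `n + 1` distinct palindromes. -/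
def RRich (x : ℕ → A) : Prop := ∀ w ∈ factors x, (palFactors w).ncard = w.length + 1

theorem palFactors_fac (y : ℕ → A) (i m : ℕ) : palFactors (fac y i m) =
    {p | ∃ j n, i ≤ j ∧ j + n ≤ i + m ∧ p = fac y j n ∧ p.reverse = p} := by
  ext p
  constructor
  · rintro ⟨⟨a, b, h1⟩, h2⟩
    have h3 := fac_decomp3 h1.symm
    have h4 := congrArg List.length h1
    simp only [List.length_append, fac_length] at h4
    exact ⟨i + a.length, p.length, by omega, by omega, h3, h2⟩
  · rintro ⟨j, n, h1, h2, h3, h4⟩
    refine ⟨?_, h4⟩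
    rw [h3]
    exact fac_infix y h1 h2

theorem rich_of_cr {y : ℕ → A} (hcr : ∀ i j n : ℕ, i < j → (fac y i n).reverse = fac y i n →
    fac y j n = fac y i n → (∀ k, i < k → k < j → fac y k n ≠ fac y i n) →
    (fac y i (j - i + n)).reverse = fac y i (j - i + n)) (i : ℕ) :
    ∀ m, (palFactors (fac y i m)).Finite ∧ (palFactors (fac y i m)).ncard = m + 1 := by
  intro m
  induction m with
  | zero =>
    have e : palFactors (fac y i 0) = {[]} := by
      ext p
      simp only [palFactors, fac_zero, Set.mem_ofPred_eq, Set.mem_singleton_iff]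
      constructor
      · rintro ⟨h1, _⟩
        exact List.eq_nil_of_infix_nil h1
      · rintro rfl
        exact ⟨List.infix_refl _, rfl⟩
    rw [e]
    exact ⟨Set.finite_singleton _, by simp⟩
  | succ m ih =>
    obtain ⟨hfin, hcard⟩ := ih
    obtain ⟨n, hn1, hn2, hn3, hn4⟩ : ∃ n, 1 ≤ n ∧ n ≤ m + 1 ∧
        (fac y (i + m + 1 - n) n).reverse = fac y (i + m + 1 - n) n ∧
        ∀ n', n' ≤ m + 1 → (fac y (i + m + 1 - n') n').reverse = fac y (i + m + 1 - n') n' →
          n' ≤ n := by
      have h1 : (fac y (i + m + 1 - 1) 1).reverse = fac y (i + m + 1 - 1) 1 := by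
        rw [fac_one]; rfl
      refine ⟨Nat.findGreatest (fun n => (fac y (i + m + 1 - n) n).reverse =
        fac y (i + m + 1 - n) n) (m + 1), ?_, Nat.findGreatest_le _, ?_, ?_⟩
      · exact Nat.le_findGreatest (by omega) h1
      · exact Nat.findGreatest_spec (P := fun n => (fac y (i + m + 1 - n) n).reverse =
          fac y (i + m + 1 - n) n) (m := 1) (by omega) h1
      · intro n' h2 h3
        exact Nat.le_findGreatest h2 h3
    obtain ⟨j1, hj1⟩ : ∃ j1, j1 = i + m + 1 - n := ⟨_, rfl⟩
    rw [← hj1] at hn3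
    have hnot : fac y j1 n ∉ palFactors (fac y i m) := by
      rw [palFactors_fac]
      rintro ⟨j, n', h1, h2, h3, _⟩
      have h4 : n' = n := by
        have := congrArg List.length h3
        simpa using this.symm
      subst h4
      obtain ⟨j2, hj2⟩ : ∃ j2, j2 = Nat.findGreatest (fun k => fac y k n' = fac y j1 n') (j1 - 1) :=
        ⟨_, rfl⟩
      have h5 : j ≤ j2 := by
        rw [hj2]
        exact Nat.le_findGreatest (by omega) h3.symm
      have h6 : fac y j2 n' = fac y j1 n' := by
        rw [hj2]
        exact Nat.findGreatest_spec (P := fun k => fac y k n' = fac y j1 n') (m := j) (by omega)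
          h3.symm
      have h7 : j2 ≤ j1 - 1 := by rw [hj2]; exact Nat.findGreatest_le _
      have h8 := hcr j2 j1 n' (by omega) (by rw [h6]; exact hn3) h6.symm (by
        intro k hk hk' h9
        have h10 : k ≤ j2 := by
          rw [hj2]
          exact Nat.le_findGreatest (by omega) (h9.trans h6)
        omega)
      have h9 := hn4 (j1 - j2 + n') (by omega) (by
        rw [show i + m + 1 - (j1 - j2 + n') = j2 by omega]
        exact h8)
      omega
    have hset : palFactors (fac y i (m + 1)) = insert (fac y j1 n) (palFactors (fac y i m)) := by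
      rw [palFactors_fac, palFactors_fac]
      ext p
      simp only [Set.mem_ofPred_eq, Set.mem_insert_iff]
      constructor
      · rintro ⟨j, n', h1, h2, h3, h4⟩
        by_cases h5 : j + n' ≤ i + m
        · exact Or.inr ⟨j, n', h1, h5, h3, h4⟩
        · have h6 : j = i + m + 1 - n' := by omega
          have h7 := hn4 n' (by omega) (by rw [← h6, ← h3]; exact h4)
          rcases Nat.lt_or_ge n' n with h8 | h8
          · right
            refine ⟨j1, n', by omega, by omega, ?_, h4⟩
            have e1 : fac y j1 n = fac y j1 n' ++ fac y (j1 + n') (n - n') := by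
              rw [← fac_add]; congr 1; omega
            have e2 : fac y j1 n = fac y j1 (n - n') ++ fac y j n' := by
              rw [show j = j1 + (n - n') by omega, ← fac_add]
              congr 1; omega
            have e3 : (fac y j1 (n - n') ++ fac y j n').reverse =
                fac y j1 n' ++ fac y (j1 + n') (n - n') := by
              rw [← e2, hn3]
              exact e1
            rw [List.reverse_append, ← h3, h4] at e3
            exact List.append_inj_left e3 (by rw [h3]; simp)
          · left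
            have h9 : n' = n := le_antisymm h7 h8
            rw [h3, h6, h9, hj1]
      · rintro (rfl | ⟨j, n', h1, h2, h3, h4⟩)
        · exact ⟨j1, n, by omega, by omega, rfl, hn3⟩
        · exact ⟨j, n', h1, by omega, h3, h4⟩
    refine ⟨by rw [hset]; exact hfin.insert _, ?_⟩
    rw [hset, Set.ncard_insert_of_notMem hnot hfin, hcard]

theorem rrich_of {y : ℕ → A} (hr : ∀ w ∈ factors y, w.reverse ∈ factors y) (hq : Req y) :
    RRich y := by
  rintro w ⟨i, n, rfl⟩
  rw [fac_length]
  exact (rich_of_cr (cr hr hq) i n).2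

end partF

section partG

/-- in an `R`-rich word the consecutive visits to a class span palindromes -/
theorem ret_pal {z : ℕ → A} (hz : RRich z) {i j n : ℕ} (hij : i < j)
    (hc : can (fac z i n) = can (fac z j n))
    (hno : ∀ k, i < k → k < j → can (fac z k n) ≠ can (fac z i n)) :
    (fac z i (j - i + n)).reverse = fac z i (j - i + n) := by
  obtain ⟨m, hm⟩ : ∃ m, j - i + n = m + 1 := ⟨j - i + n - 1, by omega⟩
  rw [hm]
  have h1 := hz _ (fac_mem z i (m + 1))
  have h2 := hz _ (fac_mem z i m)
  rw [fac_length] at h1 h2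
  have hnsub : ¬ palFactors (fac z i (m + 1)) ⊆ palFactors (fac z i m) := by
    intro h3
    have := Set.ncard_le_ncard h3 (Set.finite_of_ncard_pos (by omega))
    omega
  obtain ⟨p, hp1, hp2⟩ := Set.not_subset.1 hnsub
  rw [palFactors_fac] at hp1 hp2
  obtain ⟨k, l, hk1, hk2, hk3, hk4⟩ := hp1
  have hk5 : k + l = j + n := by
    by_contra hne
    exact hp2 ⟨k, l, hk1, by omega, hk3, hk4⟩
  by_cases hln : n ≤ l
  · have e1 : p = fac z k n ++ fac z (k + n) (l - n) := by
      rw [hk3, ← fac_add]; congr 1; omega
    have e2 : p = fac z k (l - n) ++ fac z j n := by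
      rw [hk3, show j = k + (l - n) by omega, ← fac_add]
      congr 1; omega
    have e3 : fac z k n = (fac z j n).reverse := by
      have h3 : p.reverse = (fac z j n).reverse ++ (fac z k (l - n)).reverse := by
        rw [e2, List.reverse_append]
      rw [hk4, e1] at h3
      exact List.append_inj_left h3 (by simp)
    have e4 : can (fac z k n) = can (fac z i n) := by
      rw [e3, can_rev, hc]
    have hk6 : k = i ∨ k = j := by
      by_contra hne
      push Not at hne
      exact hno k (by omega) (by omega) e4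
    rcases hk6 with hk6 | hk6
    · rw [hk6, show l = m + 1 by omega] at hk3
      rw [hk3] at hk4
      exact hk4
    · exfalso
      have hl : l = n := by omega
      rw [hk6, hl] at hk3
      apply hp2
      refine ⟨i, n, le_rfl, by omega, ?_, hk4⟩
      rcases can_eq.1 hc with h3 | h3
      · rw [h3, hk3]
      · rw [h3, ← hk3, hk4]
  · exfalso
    apply hp2
    rcases can_eq.1 hc with h3 | h3
    · refine ⟨i + (n - l), l, by omega, by omega, ?_, hk4⟩
      rw [show n = (n - l) + l by omega, fac_add, fac_add] at h3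
      have h4 := List.append_inj_right h3 (by simp)
      rw [h4, hk3]
      congr 1
      omega
    · refine ⟨i, l, by omega, by omega, ?_, hk4⟩
      have e1 : fac z i n = fac z i l ++ fac z (i + l) (n - l) := by
        rw [← fac_add]; congr 1; omega
      have e2 : fac z j n = fac z j (n - l) ++ p := by
        rw [hk3, show k = j + (n - l) by omega, ← fac_add]; congr 1; omega
      rw [e1, e2, List.reverse_append, hk4] at h3
      exact (List.append_inj_left h3 (by
        have := congrArg List.length hk3
        simp at this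
        simp [this])).symm

theorem pal_mirror {z : ℕ → A} {i N : ℕ} (h : (fac z i N).reverse = fac z i N) {s l : ℕ}
    (h1 : i ≤ s) (h2 : s + l ≤ i + N) :
    fac z (i + (i + N - s - l)) l = (fac z s l).reverse := by
  have e1 : fac z i N = fac z i (s - i) ++ fac z s l ++ fac z (s + l) (i + N - s - l) := by
    rw [show fac z s l = fac z (i + (s - i)) l by congr 1; omega, ← fac_add,
      show s + l = i + (s - i + l) by omega, ← fac_add]
    congr 1; omega
  have e2 : fac z i N = (fac z (s + l) (i + N - s - l)).reverse ++ (fac z s l).reverse ++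
      (fac z i (s - i)).reverse := by
    rw [← h, e1]; simp
  have e3 := fac_decomp3 e2
  rw [List.length_reverse, List.length_reverse, fac_length, fac_length] at e3
  exact e3.symm

/-- the crossing indicator -/
noncomputable def chi (z : ℕ → A) (s : ℕ) : A :=
  if fac z s 4 = [0, 0, 1, 1] ∨ fac z s 4 = [1, 1, 0, 0] then 1 else 0

/-- the parity of the number of crossings -/
noncomputable def Gam (z : ℕ → A) (t : ℕ) : A := ∑ s ∈ Finset.range t, chi z s

theorem chi_rev {z : ℕ → A} {s s' : ℕ} (h : fac z s' 4 = (fac z s 4).reverse) :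
    chi z s' = chi z s := by
  unfold chi
  have : (fac z s' 4 = [0, 0, 1, 1] ∨ fac z s' 4 = [1, 1, 0, 0]) ↔
      (fac z s 4 = [0, 0, 1, 1] ∨ fac z s 4 = [1, 1, 0, 0]) := by
    rw [h, List.reverse_eq_iff, List.reverse_eq_iff, Or.comm]
    rfl
  rw [if_congr this rfl rfl]

theorem chi_pal {z : ℕ → A} {s : ℕ} (h : fac z s 4 = (fac z s 4).reverse) : chi z s = 0 := by
  unfold chi
  rw [if_neg]
  rintro (h1 | h1) <;> rw [h1] at h <;> revert h <;> decide

theorem Gam_inv {z : ℕ → A} (hz : RRich z) : ∀ (d i : ℕ),
    can (fac z i 3) = can (fac z (i + d) 3) → Gam z i = Gam z (i + d) := by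
  intro d
  induction d using Nat.strong_induction_on with
  | _ d ih =>
    intro i hc
    rcases Nat.eq_zero_or_pos d with hd | hd
    · rw [hd]; rfl
    · by_cases hex : ∃ k, 0 < k ∧ k < d ∧ can (fac z (i + k) 3) = can (fac z i 3)
      · obtain ⟨k, h1, h2, h3⟩ := hex
        have h4 := ih k h2 i h3.symm
        have h5 := ih (d - k) (by omega) (i + k) (by
          rw [h3, hc]; congr 2; omega)
        rw [show i + k + (d - k) = i + d by omega] at h5
        exact h4.trans h5
      · push Not at hex
        have hp := ret_pal hz (i := i) (j := i + d) (n := 3) (by omega) hc (by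
          intro k hk1 hk2 h3
          refine hex (k - i) (by omega) (by omega) ?_
          rw [show i + (k - i) = k by omega]
          exact h3)
        rw [show i + d - i + 3 = d + 3 by omega] at hp
        have hsum : ∑ s ∈ Finset.range d, chi z (i + s) = 0 := by
          have hmir : ∀ s, s < d → fac z (i + (d - 1 - s)) 4 = (fac z (i + s) 4).reverse := by
            intro s hs
            have := pal_mirror hp (s := i + s) (l := 4) (by omega) (by omega)
            rw [show i + (d + 3) - (i + s) - 4 = d - 1 - s by omega] at this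
            exact this
          refine Finset.sum_involution (fun s _ => d - 1 - s) ?_ ?_ ?_ ?_
          · intro s hs
            rw [chi_rev (hmir s (Finset.mem_range.1 hs)), add_self]
          · intro s hs hne heq
            apply hne
            have := hmir s (Finset.mem_range.1 hs)
            rw [heq] at this
            exact chi_pal this
          · intro s hs
            have := Finset.mem_range.1 hs
            rw [Finset.mem_range]
            omega
          · intro s hs
            have := Finset.mem_range.1 hs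
            omega
        unfold Gam
        rw [Finset.sum_range_add, hsum, add_zero]

theorem Gam_inv' {z : ℕ → A} (hz : RRich z) {i j : ℕ} {w : List A} (hi : fac z i 3 = w)
    (hj : fac z j 3 = w) : Gam z i = Gam z j := by
  rcases le_total i j with h | h
  · obtain ⟨d, rfl⟩ := Nat.exists_eq_add_of_le h
    exact Gam_inv hz d i (by rw [hi, hj])
  · obtain ⟨d, rfl⟩ := Nat.exists_eq_add_of_le h
    exact (Gam_inv hz d j (by rw [hi, hj])).symm

theorem not_rrich {z : ℕ → A} (h4 : ∀ a b c d : A, [a, b, c, d] ∈ factors z) : ¬ RRich z := by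
  intro hz
  have occ : ∀ a b c d : A, ∃ i, fac z i 4 = [a, b, c, d] ∧ fac z i 3 = [a, b, c] ∧
      fac z (i + 1) 3 = [b, c, d] := by
    intro a b c d
    obtain ⟨i, n, h⟩ := h4 a b c d
    have hn : n = 4 := by
      have := congrArg List.length h
      simpa using this.symm
    subst hn
    refine ⟨i, h.symm, ?_, ?_⟩
    · rw [fac_succ'] at h
      exact (List.append_inj_left' (s₁ := [a, b, c]) (t₁ := [d]) h rfl).symm
    · rw [fac_succ] at h
      exact (List.cons_eq_cons.1 h).2.symm
  have step : ∀ i, Gam z (i + 1) = Gam z i + chi z i := by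
    intro i
    unfold Gam
    rw [Finset.sum_range_succ]
  obtain ⟨i1, a1, b1, c1⟩ := occ 0 0 1 1
  obtain ⟨i2, a2, b2, c2⟩ := occ 0 0 1 0
  obtain ⟨i3, a3, b3, c3⟩ := occ 0 1 0 1
  obtain ⟨i4, a4, b4, c4⟩ := occ 1 0 1 1
  have x1 : chi z i1 = 1 := by
    unfold chi
    rw [if_pos (Or.inl a1)]
  have x2 : chi z i2 = 0 := by
    unfold chi
    rw [a2, if_neg (by decide)]
  have x3 : chi z i3 = 0 := by
    unfold chi
    rw [a3, if_neg (by decide)]
  have x4 : chi z i4 = 0 := by
    unfold chi
    rw [a4, if_neg (by decide)]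
  have e1 := Gam_inv' hz b1 b2
  have e2 := Gam_inv' hz c2 b3
  have e3 := Gam_inv' hz c3 b4
  have e4 := Gam_inv' hz c4 c1
  have s1 := step i1
  have s2 := step i2
  have s3 := step i3
  have s4 := step i4
  rw [x1] at s1
  rw [x2, add_zero] at s2
  rw [x3, add_zero] at s3
  rw [x4, add_zero] at s4
  have : Gam z i1 + 1 = Gam z i1 := by
    rw [← s1, ← e4, s4, ← e3, s3, ← e2, s2, ← e1]
  exact ne_succ _ this

theorem exists_pre (x : ℕ → A) : ∃ z, S z = x := by
  refine ⟨fun i => ∑ j ∈ Finset.range i, x j, ?_⟩
  funext i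
  unfold S
  beta_reduce
  rw [Finset.sum_range_succ, ← add_assoc, add_self, zero_add]

/-- For every Sturmian word `u`, every `S²`-preimage of `u` is both `H`-rich and `R`-rich, and every
`S³`-preimage of `u` is `H`-rich but not `R`-rich. -/
theorem result : ∀ u : ℕ → ZMod 2, Sturmian u →
    (∀ x : ℕ → ZMod 2, S^[2] x = u → HRich x ∧ RRich x) ∧
    (∀ x : ℕ → ZMod 2, S^[3] x = u → HRich x ∧ ¬ RRich x) := by
  intro u hu
  constructor
  · intro x hx
    have h1 : S (S x) = u := hx
    obtain ⟨z, hz⟩ := exists_pre x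
    obtain ⟨c1, c2, _⟩ := CS_all hu (x3 := z) (by rw [hz]; exact h1)
    rw [hz] at c1 c2
    have r1 := rev_step h1 c1 (sturm_rev hu)
    refine ⟨hrich_of rfl c2 r1 (Req1 hu h1 c1), ?_⟩
    exact rrich_of (rev_step rfl c2 r1) (Req2 hu h1 c1 rfl c2)
  · intro x hx
    have h1 : S (S (S x)) = u := hx
    obtain ⟨c1, c2, c3⟩ := CS_all hu h1
    have r1 := rev_step h1 c1 (sturm_rev hu)
    have r2 := rev_step rfl c2 r1
    refine ⟨hrich_of rfl c3 r2 (Req2 hu h1 c1 rfl c2), ?_⟩
    apply not_rrich
    intro a b c d
    have e : [a, b, c, d] = integ a (integ (a + b) (integ (a + c) [a + b + c + d])) := by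
      revert a b c d; decide
    rw [e, mem_integ rfl c3, mem_integ rfl c2, mem_integ h1 c1]
    obtain ⟨W, hW1, hW2, hW3⟩ := RS_exists (sturm_bs hu) hu 0
    have hW : W = [] := List.length_eq_zero_iff.1 hW1
    rw [hW] at hW2 hW3
    rcases bin (a + b + c + d) with h2 | h2 <;> rw [h2]
    · exact hW2
    · exact hW3

end partG

end Pool.Agent.Results.MP_3c89f4_co.SPreimages
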